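import Mathlib

/-!
# The density theorem for semisimple sets of operators
-/

set_option autoImplicit false
set_option linter.unusedSectionVars false

namespace Pool.Agent.Helper49A

open Module

section dens

variable {k V : Type} [Field k] [AddCommGroup V] [Module k V]

/-- Every subspace stable under `S` has a complement stable under `S`. -/
def SemiSet (S : Set (End k V)) : Prop :=
  ∀ W : Submodule k V, (∀ X ∈ S, ∀ w ∈ W, X w ∈ W) →
    ∃ W' : Submodule k V, (∀ X ∈ S, ∀ w ∈ W', X w ∈ W') ∧ IsCompl W W'

/-- Double commutant theorem. -/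
theorem mem_of_commutes [FiniteDimensional k V] (A : Subalgebra k (End k V))
    (hss : SemiSet (A : Set (End k V))) (T : End k V)
    (hT : ∀ Y : End k V, (∀ X ∈ A, X * Y = Y * X) → T * Y = Y * T) : T ∈ A := by
  classical
  have : IsSemisimpleModule A V := by
    refine (isSemisimpleModule_iff A V).2 ⟨fun W => ?_⟩
    obtain ⟨W', hW', hc⟩ := hss (W.restrictScalars k) (fun X hX w hw => W.smul_mem (⟨X, hX⟩ : A) hw)
    refine ⟨{ W' with smul_mem' := fun c x hx => hW' c.1 c.2 x hx }, ?_⟩
    constructor
    · rw [disjoint_iff]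
      ext x
      have h1 := disjoint_iff.1 hc.1
      have h2 : x ∈ W.restrictScalars k ⊓ W' ↔ x ∈ (⊥ : Submodule k V) := by rw [h1]
      exact h2
    · rw [codisjoint_iff, eq_top_iff]
      intro x _
      have h1 := codisjoint_iff.1 hc.2
      have h2 : x ∈ W.restrictScalars k ⊔ W' := by rw [h1]; trivial
      obtain ⟨y, hy, z, hz, rfl⟩ := Submodule.mem_sup.1 h2
      exact Submodule.mem_sup.2 ⟨y, hy, z, hz, rfl⟩
  have hEnd : ∀ f : End A V, ∀ X ∈ A, X * (f.restrictScalars k) = (f.restrictScalars k) * X := by
    intro f X hX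
    refine LinearMap.ext fun v => ?_
    exact (f.map_smul (⟨X, hX⟩ : A) v).symm
  let f : End (End A V) V :=
    { toFun := T
      map_add' := T.map_add
      map_smul' := fun g v => by
        have h1 := hT (g.restrictScalars k) (hEnd g)
        have h2 := LinearMap.congr_fun h1 v
        exact h2 }
  let b := Module.finBasis k V
  obtain ⟨r, hr⟩ := jacobson_density (R := A) (M := V) f (Finset.univ.image b)
  have h : (r : End k V) = T := by
    refine b.ext fun i => ?_
    exact (hr (b i) (Finset.mem_image_of_mem _ (Finset.mem_univ i))).symm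
  rw [← h]
  exact r.2

end dens

section rep

variable {k V : Type} [Field k] [AddCommGroup V] [Module k V] {Γ : Type} [Group Γ]

/-- The span of the operators of a subgroup is a subalgebra. -/
def spanAlg (ρ : Representation k Γ V) (H : Subgroup Γ) : Subalgebra k (End k V) :=
  (Submodule.span k (ρ '' (H : Set Γ))).toSubalgebra
    (Submodule.subset_span ⟨1, H.one_mem, map_one ρ⟩) (by
      intro x y hx hy
      induction hx using Submodule.span_induction with
      | mem x hx =>
        obtain ⟨a, ha, rfl⟩ := hx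
        induction hy using Submodule.span_induction with
        | mem y hy =>
          obtain ⟨b, hb, rfl⟩ := hy
          exact Submodule.subset_span ⟨a * b, H.mul_mem ha hb, map_mul ρ a b⟩
        | zero => rw [mul_zero]; exact Submodule.zero_mem _
        | add x y _ _ hx hy => rw [mul_add]; exact Submodule.add_mem _ hx hy
        | smul c x _ hx => rw [mul_smul_comm]; exact Submodule.smul_mem _ _ hx
      | zero => rw [zero_mul]; exact Submodule.zero_mem _
      | add x y _ _ hx hy => rw [add_mul]; exact Submodule.add_mem _ hx hy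
      | smul c x _ hx => rw [smul_mul_assoc]; exact Submodule.smul_mem _ _ hx)

theorem mem_spanAlg {ρ : Representation k Γ V} {H : Subgroup Γ} {X : End k V} :
    X ∈ spanAlg ρ H ↔ X ∈ Submodule.span k (ρ '' (H : Set Γ)) := Iff.rfl

theorem rho_mem_spanAlg (ρ : Representation k Γ V) {H : Subgroup Γ} {γ : Γ} (h : γ ∈ H) :
    ρ γ ∈ spanAlg ρ H := Submodule.subset_span ⟨γ, h, rfl⟩

/-- If `H` acts semisimply, every operator which commutes with the commutant of `H` is a linear
combination of operators of `H`. -/
theorem mem_span_of_commutes [FiniteDimensional k V] (ρ : Representation k Γ V) (H : Subgroup Γ)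
    (hss : ∀ U : Submodule k V, (∀ s ∈ H, ∀ u ∈ U, ρ s u ∈ U) →
      ∃ U' : Submodule k V, (∀ s ∈ H, ∀ u ∈ U', ρ s u ∈ U') ∧ IsCompl U U') (T : End k V)
    (hT : ∀ Y : End k V, (∀ γ ∈ H, ρ γ * Y = Y * ρ γ) → T * Y = Y * T) :
    T ∈ Submodule.span k (ρ '' (H : Set Γ)) := by
  have key : ∀ U : Submodule k V, (∀ s ∈ H, ∀ u ∈ U, ρ s u ∈ U) →
      ∀ X ∈ spanAlg ρ H, ∀ w ∈ U, X w ∈ U := by
    intro U hU X hX w hw
    rw [mem_spanAlg] at hX
    induction hX using Submodule.span_induction with
    | mem x hx =>
      obtain ⟨a, ha, rfl⟩ := hx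
      exact hU a ha w hw
    | zero => rw [LinearMap.zero_apply]; exact U.zero_mem
    | add x y _ _ hx hy => rw [LinearMap.add_apply]; exact U.add_mem hx hy
    | smul c x _ hx => rw [LinearMap.smul_apply]; exact U.smul_mem _ hx
  refine mem_of_commutes (spanAlg ρ H) (fun W hW => ?_) T fun Y hY => hT Y fun γ hγ =>
    hY _ (rho_mem_spanAlg ρ hγ)
  obtain ⟨W', h1, h2⟩ := hss W fun s hs u hu => hW _ (rho_mem_spanAlg ρ hs) u hu
  exact ⟨W', fun X hX w hw => key W' h1 X hX w hw, h2⟩

end rep

end Pool.Agent.Helper49A
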