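import Mathlib

/-!
# Jordan's lemma: the conjugates of a proper subgroup of finite index do not cover the group
-/

set_option autoImplicit false

namespace Pool.Agent.Helper49A

/-- A finite group which acts transitively on a set with at least two elements contains an element
without fixed points. -/
theorem exists_no_fixed {P X : Type} [Group P] [Finite P] [MulAction P X] [Finite X]
    [MulAction.IsPretransitive P X] (hX : ∃ x y : X, x ≠ y) : ∃ g : P, ∀ x : X, g • x ≠ x := by
  classical
  have := Fintype.ofFinite P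
  have := Fintype.ofFinite X
  by_contra hcon
  push Not at hcon
  obtain ⟨x₀, y₀, hxy⟩ := hX
  have : Nonempty X := ⟨x₀⟩
  have hB := MulAction.sum_card_fixedBy_eq_card_orbits_mul_card_group P X
  have hU : Fintype.card (Quotient (MulAction.orbitRel P X)) = 1 := by
    rw [Fintype.card_eq_one_iff]
    refine ⟨Quotient.mk _ x₀, fun q => ?_⟩
    induction q using Quotient.inductionOn with
    | h z =>
      apply Quotient.sound
      show z ∈ MulAction.orbit P x₀
      rw [MulAction.mem_orbit_iff]
      exact MulAction.exists_smul_eq P x₀ z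
  rw [hU, one_mul] at hB
  have h1 : ∀ g : P, 1 ≤ Fintype.card (MulAction.fixedBy X g) := by
    intro g
    obtain ⟨x, hx⟩ := hcon g
    exact Fintype.card_pos_iff.2 ⟨⟨x, hx⟩⟩
  have h2 : 2 ≤ Fintype.card (MulAction.fixedBy X (1 : P)) := by
    have h3 : Function.Injective (fun x : X => (⟨x, by
      rw [MulAction.mem_fixedBy, one_smul]⟩ : MulAction.fixedBy X (1 : P))) := by
      intro x y h
      exact congrArg Subtype.val h
    have h4 := Fintype.card_le_of_injective _ h3
    refine le_trans ?_ h4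
    exact Fintype.one_lt_card_iff.2 ⟨x₀, y₀, hxy⟩
  have h3 : Fintype.card P < ∑ a : P, Fintype.card (MulAction.fixedBy X a) := by
    have h4 : Fintype.card P = ∑ _a : P, 1 := by simp
    rw [h4]
    exact Finset.sum_lt_sum (fun g _ => h1 g) ⟨1, Finset.mem_univ _, h2⟩
  omega

theorem exists_no_conj {G : Type} [Group G] (S : Subgroup G) [S.FiniteIndex] (hS : S ≠ ⊤) :
    ∃ g : G, ∀ x : G, x⁻¹ * g * x ∉ S := by
  classical
  have hfin : Finite (G ⧸ S) := inferInstance
  let P : Subgroup (Equiv.Perm (G ⧸ S)) := (MulAction.toPermHom G (G ⧸ S)).range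
  have hP : ∀ g : G, MulAction.toPermHom G (G ⧸ S) g ∈ P := fun g => ⟨g, rfl⟩
  have : MulAction.IsPretransitive P (G ⧸ S) := ⟨fun x y => by
    obtain ⟨g, hg⟩ := MulAction.exists_smul_eq G x y
    exact ⟨⟨_, hP g⟩, hg⟩⟩
  have hne : ∃ x y : G ⧸ S, x ≠ y := by
    obtain ⟨g, hg⟩ : ∃ g, g ∉ S := by
      by_contra h
      push Not at h
      exact hS (eq_top_iff.2 fun g _ => h g)
    refine ⟨((1 : G) : G ⧸ S), (g : G ⧸ S), fun h => hg ?_⟩
    have h1 := QuotientGroup.eq.1 h
    rwa [inv_one, one_mul] at h1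
  obtain ⟨⟨_, g, rfl⟩, hg⟩ := exists_no_fixed (P := P) (X := G ⧸ S) hne
  refine ⟨g, fun x hx => hg (x : G ⧸ S) ?_⟩
  show g • (x : G ⧸ S) = x
  have h1 : g • (x : G ⧸ S) = ((g * x : G) : G ⧸ S) := rfl
  rw [h1]
  refine (QuotientGroup.eq.2 ?_).symm
  rwa [← mul_assoc]

end Pool.Agent.Helper49A
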