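import Pool.Agent.Helper49A.Iso2
import Pool.Agent.Helper49A.Dens
import Pool.Agent.Helper49A.Jordan

/-!
# Endomorphisms over finite extensions: they are scalars, or the traces vanish on a coset
-/

set_option autoImplicit false
set_option linter.unusedSectionVars false

namespace Pool.Agent.Helper49A

open Module Polynomial TensorProduct Pool.Agent.Y114.RM Pool.Agent.TH118.SG Pool.Agent.Y114.TF
  Pool.Agent.Y114.MU Pool.Agent.H204R3.GP

section defs

variable {k : Type} [Field k] {V : Type} [AddCommGroup V] [Module k V] {G : Type} [Group G]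
  (ρ : Representation k G V)

/-- The endomorphisms which commute with a subgroup of finite index. -/
def tateEnd : Submodule k (End k V) where
  carrier := {Y | ∃ Δ : Subgroup G, Δ.FiniteIndex ∧ ∀ γ ∈ Δ, ρ γ * Y = Y * ρ γ}
  add_mem' := by
    rintro X Y ⟨Δ, hΔ, hX⟩ ⟨Δ', hΔ', hY⟩
    refine ⟨Δ ⊓ Δ', inferInstance, fun γ hγ => ?_⟩
    rw [mul_add, add_mul, hX γ hγ.1, hY γ hγ.2]
  zero_mem' := ⟨⊤, inferInstance, fun γ _ => by rw [mul_zero, zero_mul]⟩
  smul_mem' := by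
    rintro c X ⟨Δ, hΔ, hX⟩
    exact ⟨Δ, hΔ, fun γ hγ => by rw [mul_smul_comm, smul_mul_assoc, hX γ hγ]⟩

/-- The elements which commute with all endomorphisms which commute with a subgroup of finite
index. -/
def fixer : Subgroup G where
  carrier := {γ | ∀ Y ∈ tateEnd ρ, ρ γ * Y = Y * ρ γ}
  mul_mem' := by
    intro a b ha hb Y hY
    rw [map_mul, mul_assoc, hb Y hY, ← mul_assoc, ha Y hY, mul_assoc]
  one_mem' := fun Y _ => by rw [map_one, one_mul, mul_one]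
  inv_mem' := by
    intro a ha Y hY
    have h1 := ha Y hY
    have h2 : ρ a⁻¹ * (ρ a * Y) * ρ a⁻¹ = ρ a⁻¹ * (Y * ρ a) * ρ a⁻¹ := by rw [h1]
    have h3 : ρ a⁻¹ * (ρ a * Y) * ρ a⁻¹ = Y * ρ a⁻¹ := by
      rw [← mul_assoc (ρ a⁻¹), ← map_mul, inv_mul_cancel, map_one, one_mul]
    have h4 : ρ a⁻¹ * (Y * ρ a) * ρ a⁻¹ = ρ a⁻¹ * Y := by
      rw [mul_assoc, mul_assoc, ← map_mul, mul_inv_cancel, map_one, mul_one]
    rw [h3, h4] at h2
    exact h2.symm

theorem mem_fixer {γ : G} : γ ∈ fixer ρ ↔ ∀ Y ∈ tateEnd ρ, ρ γ * Y = Y * ρ γ := Iff.rfl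

theorem conj_mem (g : G) {Y : End k V} (hY : Y ∈ tateEnd ρ) : ρ g * Y * ρ g⁻¹ ∈ tateEnd ρ := by
  obtain ⟨Δ, hΔ, hY⟩ := hY
  refine ⟨Δ.map (MulAut.conj g).toMonoidHom, ?_, ?_⟩
  · constructor
    have h1 : (Δ.map (MulAut.conj g).toMonoidHom).index = Δ.index :=
      Subgroup.index_map_equiv Δ (MulAut.conj g)
    rw [h1]
    exact hΔ.index_ne_zero
  · rintro _ ⟨γ, hγ, rfl⟩
    show ρ (g * γ * g⁻¹) * _ = _ * ρ (g * γ * g⁻¹)
    have h1 := hY γ hγ
    have h2 : ρ (g * γ * g⁻¹) * (ρ g * Y * ρ g⁻¹) = ρ g * (ρ γ * Y) * ρ g⁻¹ := by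
      simp only [map_mul, mul_assoc]
      rw [← mul_assoc (ρ g⁻¹) (ρ g), ← map_mul, inv_mul_cancel, map_one, one_mul]
    have h3 : ρ g * Y * ρ g⁻¹ * ρ (g * γ * g⁻¹) = ρ g * (Y * ρ γ) * ρ g⁻¹ := by
      simp only [map_mul, mul_assoc]
      rw [← mul_assoc (ρ g⁻¹) (ρ g), ← map_mul, inv_mul_cancel, map_one, one_mul]
    rw [h2, h3, h1]

instance fixer_normal : (fixer ρ).Normal := ⟨by
  intro n hn g Y hY
  have h1 := hn _ (conj_mem ρ g⁻¹ hY)
  rw [inv_inv] at h1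
  have h2 : ρ (g * n * g⁻¹) * Y = ρ g * (ρ n * (ρ g⁻¹ * Y * ρ g)) * ρ g⁻¹ := by
    simp only [map_mul, mul_assoc]
    rw [← map_mul ρ g g⁻¹, mul_inv_cancel, map_one, mul_one]
  have h3 : Y * ρ (g * n * g⁻¹) = ρ g * (ρ g⁻¹ * Y * ρ g * ρ n) * ρ g⁻¹ := by
    simp only [map_mul, mul_assoc]
    rw [← mul_assoc (ρ g) (ρ g⁻¹), ← map_mul ρ g g⁻¹, mul_inv_cancel, map_one, one_mul]
  rw [h2, h3, h1]⟩

theorem fixer_finiteIndex [FiniteDimensional k V] : (fixer ρ).FiniteIndex := by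
  classical
  let b := Module.finBasis k (tateEnd ρ)
  choose Δ hΔ hb using fun j => (b j).2
  have h1 : (⨅ j, Δ j).FiniteIndex := by
    have := hΔ
    exact Subgroup.finiteIndex_iInf hΔ
  refine Subgroup.finiteIndex_of_le (H := ⨅ j, Δ j) ?_
  intro γ hγ Y hY
  have h2 : (⟨Y, hY⟩ : tateEnd ρ) ∈ Submodule.span k (Set.range b) := by
    rw [b.span_eq]; trivial
  have key : ∀ Z : tateEnd ρ, Z ∈ Submodule.span k (Set.range b) →
      ρ γ * (Z : End k V) = (Z : End k V) * ρ γ := by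
    intro Z hZ
    induction hZ using Submodule.span_induction with
    | mem x hx =>
      obtain ⟨j, rfl⟩ := hx
      exact hb j γ (Subgroup.mem_iInf.1 hγ j)
    | zero => rw [ZeroMemClass.coe_zero, mul_zero, zero_mul]
    | add x y _ _ hx hy => rw [Submodule.coe_add, mul_add, add_mul, hx, hy]
    | smul c x _ hx => rw [Submodule.coe_smul, mul_smul_comm, smul_mul_assoc, hx]
  exact key _ h2

theorem fixer_mem_tateEnd [FiniteDimensional k V] {Y : End k V}
    (hY : ∀ γ ∈ fixer ρ, ρ γ * Y = Y * ρ γ) : Y ∈ tateEnd ρ := ⟨fixer ρ, fixer_finiteIndex ρ, hY⟩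

end defs

section pow

variable {V : Type} [AddCommGroup V] [Module ℂ V]

theorem maxGen_pow_le (g : End ℂ V) (b : ℂ) (N : ℕ) :
    g.maxGenEigenspace b ≤ (g ^ N).maxGenEigenspace (b ^ N) := by
  intro x hx
  rw [mem_gen] at hx ⊢
  obtain ⟨m, hm⟩ := hx
  refine ⟨m, ?_⟩
  obtain ⟨r, hr⟩ : (X - C b : ℂ[X]) ∣ X ^ N - C (b ^ N) := by
    rw [C_pow]
    exact sub_dvd_pow_sub_pow X (C b) N
  have h1 : g ^ N - algebraMap ℂ (End ℂ V) (b ^ N) = aeval g r * (g - algebraMap ℂ (End ℂ V) b) := by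
    have h2 := congrArg (aeval g) hr
    rw [map_sub, map_pow, aeval_X, aeval_C, mul_comm, map_mul, map_sub, aeval_X, aeval_C] at h2
    exact h2
  have h3 : Commute (aeval g r) (g - algebraMap ℂ (End ℂ V) b) := by
    have h4 : g - algebraMap ℂ (End ℂ V) b = aeval g (X - C b) := by
      rw [map_sub, aeval_X, aeval_C]
    rw [h4]
    exact (Commute.all r (X - C b)).map (aeval g)
  rw [h1, h3.mul_pow, End.mul_apply, hm, map_zero]

theorem maxGen_isolated [FiniteDimensional ℂ V] (g : End ℂ V) (a : ℂ)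
    (ha : IsolatedRoot g.charpoly a) {N : ℕ} (hN : 0 < N) :
    (g ^ N).maxGenEigenspace (a ^ N) ≤ g.maxGenEigenspace a := by
  have hst : ∀ x ∈ (g ^ N).maxGenEigenspace (a ^ N), g x ∈ (g ^ N).maxGenEigenspace (a ^ N) :=
    fun x hx => (Module.End.mapsTo_maxGenEigenspace_of_comm (f := g ^ N) (g := g)
      ((Commute.refl g).pow_left N) (a ^ N)) hx
  have h1 := Submodule.inf_iSup_genEigenspace (p := (g ^ N).maxGenEigenspace (a ^ N)) (f := g) hst ⊤
  have h2 : ⨆ μ : ℂ, g.genEigenspace μ ⊤ = ⊤ := Module.End.iSup_maxGenEigenspace_eq_top g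
  rw [h2, inf_top_eq] at h1
  rw [h1]
  refine iSup_le fun b => ?_
  by_cases hb : (g ^ N).maxGenEigenspace (a ^ N) ⊓ g.genEigenspace b ⊤ = ⊥
  · rw [hb]
    exact bot_le
  · obtain ⟨x, hx, hx0⟩ := Submodule.exists_mem_ne_zero_of_ne_bot hb
    obtain ⟨hx1, hx2⟩ := Submodule.mem_inf.1 hx
    have hab : b ^ N = a ^ N := by
      by_contra hne
      have h3 := (Module.End.independent_maxGenEigenspace (g ^ N)).pairwiseDisjoint hne
      exact hx0 (Submodule.disjoint_def.1 h3 x (maxGen_pow_le g b N hx2) hx1)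
    have hroot : g.charpoly.IsRoot b := by
      rw [← Module.End.hasEigenvalue_iff_isRoot_charpoly]
      have h3 : g.HasUnifEigenvalue b ⊤ := by
        intro h4
        have h5 : x ∈ g.genEigenspace b ⊤ := hx2
        rw [h4, Submodule.mem_bot] at h5
        exact hx0 h5
      exact h3.lt one_pos
    have hba := ha.2 b hroot ⟨N, hN, hab⟩
    rw [hba]
    exact inf_le_right

end pow

end Pool.Agent.Helper49A
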