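import Pool.Agent.Helper49A.Core

/-!
# The converse: if all Tate tensors are motivated, there are only block scalars
-/

set_option autoImplicit false
set_option linter.unusedSectionVars false

namespace Pool.Agent.Helper49A

open NumberField IsDedekindDomain Module Polynomial TensorProduct Pool.Agent.Y114.RM
  Pool.Agent.Y114.TF Pool.Agent.Y114.GF Pool.Agent.Y114.MU Pool.Agent.H204R3.GP
  Pool.Agent.R931.IR Pool.Agent.R931.BD Pool.Agent.N203.RE Pool.Agent.W571.FM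

section tensor

variable {k : Type} [Field k] {ι : Type} [DecidableEq ι] {V : ι → Type}
  [∀ i, AddCommGroup (V i)] [∀ i, Module k (V i)] {Γ : Type} [Group Γ]
  (ρ : ∀ i, Representation k Γ (V i))

/-- Endomorphisms which commute with the motivic Lie algebra commute with a subgroup of finite
index. -/
theorem tate_of_commutes {𝔤 : Submodule k (End k (∀ i, V i))} (h𝔤 : IsMotivic ρ 𝔤)
    {Y : End k (∀ i, V i)} (hY : ∀ X ∈ 𝔤, X * Y = Y * X) : Y ∈ tateEnd (sumRep ρ) := by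
  let ω : ((∀ i, V i) × Dual k (∀ i, V i)) →ₗ[k] ((∀ i, V i) × Dual k (∀ i, V i)) →ₗ[k] k :=
    LinearMap.mk₂ k (fun a b => b.2 (Y a.1))
      (fun a a' b => by rw [Prod.fst_add, map_add, map_add])
      (fun c a b => by rw [Prod.smul_fst, map_smul, map_smul])
      (fun a b b' => by rw [Prod.snd_add, LinearMap.add_apply])
      (fun c a b => by rw [Prod.smul_snd, LinearMap.smul_apply])
  let φ : Tensor k (∀ i, V i) 2 := Pool.Agent.H204R3.SP.bil2 ω
  have hφ : ∀ v, φ v = (v 1).2 (Y (v 0).1) := fun v => rfl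
  obtain ⟨Δ, hΔ, h1⟩ := h𝔤.tate 2 φ (fun X hX v => by
    rw [Fin.sum_univ_two, hφ, hφ, Function.update_self, Function.update_self,
      Function.update_of_ne Fin.zero_ne_one.symm, Function.update_of_ne Fin.zero_ne_one]
    change (v 1).2 (Y (X (v 0).1)) + -((v 1).2 (X (Y (v 0).1))) = 0
    have h2 := LinearMap.congr_fun (hY X hX) (v 0).1
    rw [End.mul_apply, End.mul_apply] at h2
    rw [h2, add_neg_cancel])
  refine ⟨Δ, hΔ, fun γ hγ => ?_⟩
  have h2 : ∀ x, sumRep ρ γ⁻¹ (Y (sumRep ρ γ x)) = Y x := by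
    intro x
    rw [← sub_eq_zero, ← Module.forall_dual_apply_eq_zero_iff k]
    intro ξ
    have h3 := h1 γ hγ ![(x, 0), (0, ξ)]
    rw [hφ, hφ] at h3
    change ξ (sumRep ρ γ⁻¹ (Y (sumRep ρ γ x))) = ξ (Y x) at h3
    rw [map_sub, h3, sub_self]
  refine LinearMap.ext fun x => ?_
  rw [End.mul_apply, End.mul_apply, ← h2 x, ← End.mul_apply (sumRep ρ γ), ← map_mul,
    mul_inv_cancel, map_one, End.one_apply]

end tensor

section rational

variable {ι : Type} [Fintype ι] [DecidableEq ι] {n : ι → ℕ}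

/-- The rational endomorphisms which act by scalars on the summands. -/
def ratBlocks (n : ι → ℕ) : Submodule ℚ (End ℚ (Betti n)) where
  carrier := {Z | ∃ c : ι → ℚ, ∀ (x : Betti n) (i : ι) (j : Fin (n i)), Z x i j = c i * x i j}
  add_mem' := by
    rintro A B ⟨a, ha⟩ ⟨b, hb⟩
    refine ⟨a + b, fun x i j => ?_⟩
    show A x i j + B x i j = _
    rw [ha, hb, Pi.add_apply, add_mul]
  zero_mem' := ⟨0, fun x i j => by
    rw [Pi.zero_apply, zero_mul]
    rfl⟩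
  smul_mem' := by
    rintro t A ⟨a, ha⟩
    refine ⟨t • a, fun x i j => ?_⟩
    show t * A x i j = _
    rw [ha, Pi.smul_apply, smul_eq_mul, mul_assoc]

variable (ℓ : ℕ) [Fact ℓ.Prime]

theorem toLadic_apply (x : Betti n) (i : ι) (j : Fin (n i)) :
    toLadic ℓ x i j = ((x i j : ℚ) : ℚ_[ℓ]) := rfl

/-- If at one prime there are only block scalars, the rational commutant of `𝔤` consists of block
scalars. -/
theorem rat_commutant {Γ : Type} [Group Γ] (ρ : Reps Γ n ℓ) {𝔤 : Submodule ℚ (End ℚ (Betti n))}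
    (hmot : Motivic ρ (scalars ℓ 𝔤)) (h : OnlyBlockScalars ρ) (Z : End ℚ (Betti n))
    (hZ : ∀ X ∈ 𝔤, X * Z = Z * X) : Z ∈ ratBlocks n := by
  have hcomm : ∀ X ∈ scal ℓ 𝔤, X * (ee ℓ).conj (Z.baseChange ℚ_[ℓ]) =
      (ee ℓ).conj (Z.baseChange ℚ_[ℓ]) * X := by
    intro X hX
    obtain ⟨X', rfl⟩ := exists_conj ℓ X
    rw [mem_scalars] at hX
    rw [← Pool.Agent.N203.RE.conj_mul, ← Pool.Agent.N203.RE.conj_mul, bcS_comm hZ X' hX]
  obtain ⟨c, hc⟩ := h _ (tate_of_commutes ρ hmot hcomm)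
  have hext : ∀ x : Betti n, (ee ℓ).conj (Z.baseChange ℚ_[ℓ]) (toLadic ℓ x) = toLadic ℓ (Z x) :=
    (extends_iff ℓ Z _).2 rfl
  have key : ∀ (x : Betti n) (i : ι) (j : Fin (n i)), ((Z x i j : ℚ) : ℚ_[ℓ]) =
      c i * ((x i j : ℚ) : ℚ_[ℓ]) := by
    intro x i j
    have h1 := congrFun (hc (toLadic ℓ x) i) j
    rw [hext, toLadic_apply, Pi.smul_apply, toLadic_apply, smul_eq_mul] at h1
    exact h1
  let u : ∀ i : ι, 0 < n i → Betti n := fun i hi =>
    (Pi.single i (Pi.single (⟨0, hi⟩ : Fin (n i)) (1 : ℚ)) : ∀ i, Fin (n i) → ℚ)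
  have hu : ∀ i (hi : 0 < n i), u i hi i ⟨0, hi⟩ = 1 := by
    intro i hi
    show (Pi.single i (Pi.single (⟨0, hi⟩ : Fin (n i)) (1 : ℚ)) : ∀ i, Fin (n i) → ℚ) i ⟨0, hi⟩ = 1
    rw [Pi.single_eq_same, Pi.single_eq_same]
  refine ⟨fun i => if hi : 0 < n i then Z (u i hi) i ⟨0, hi⟩ else 0, fun x i j => ?_⟩
  have hi : 0 < n i := lt_of_le_of_lt (Nat.zero_le _) j.2
  show Z x i j = (if hi : 0 < n i then Z (u i hi) i ⟨0, hi⟩ else 0) * x i j
  rw [dif_pos hi]
  have h1 := key (u i hi) i ⟨0, hi⟩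
  rw [hu, Rat.cast_one, mul_one] at h1
  have h2 := key x i j
  rw [← h1, ← Rat.cast_mul] at h2
  exact_mod_cast h2

/-- The endomorphisms over `ℚ_ℓ` which commute with `𝔤 ⊗ ℚ_ℓ` are block scalars, if this is so over
the rational numbers. -/
theorem blocks_of_rat {𝔤 : Submodule ℚ (End ℚ (Betti n))}
    (h : ∀ Z : End ℚ (Betti n), (∀ X ∈ 𝔤, X * Z = Z * X) → Z ∈ ratBlocks n)
    (Y : End ℚ_[ℓ] (∀ i, Fin (n i) → ℚ_[ℓ])) (hY : ∀ X ∈ scal ℓ 𝔤, X * Y = Y * X) :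
    ∃ c : ι → ℚ_[ℓ], ∀ x i, Y x i = c i • x i := by
  obtain ⟨Y', rfl⟩ := exists_conj ℓ Y
  have h1 : Y' ∈ bcS ℚ_[ℓ] (ratBlocks n) := by
    rw [(inputs.bc ℚ ℚ_[ℓ] (Betti n) (ratBlocks n)).1]
    intro π
    refine h _ fun X hX => ?_
    have h2 := hY _ ((mem_scalars ℓ).2 (mem_bcS hX))
    rw [← Pool.Agent.N203.RE.conj_mul, ← Pool.Agent.N203.RE.conj_mul] at h2
    have h3 := (ee ℓ).conj.injective h2
    rw [← pM_bc_mul, h3, pM_mul_bc]
  rw [← mem_scalars] at h1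
  have h2 : (ee ℓ).conj Y' ∈ Submodule.span ℚ_[ℓ] {Y : LadicEnd n ℓ | ∃ X ∈ ratBlocks n,
      Extends X Y} := h1
  generalize (ee ℓ).conj Y' = Y at h2
  induction h2 using Submodule.span_induction with
  | mem Y hY =>
    obtain ⟨X, ⟨c, hc⟩, hXY⟩ := hY
    let D : End ℚ_[ℓ] (∀ i, Fin (n i) → ℚ_[ℓ]) :=
      LinearMap.pi fun i => (c i : ℚ_[ℓ]) • LinearMap.proj i
    have hD : Extends X D := by
      intro x
      funext i j
      show (c i : ℚ_[ℓ]) * toLadic ℓ x i j = toLadic ℓ (X x) i j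
      rw [toLadic_apply, toLadic_apply, hc, Rat.cast_mul]
    have hYD : Y = D := ((extends_iff ℓ X Y).1 hXY).trans ((extends_iff ℓ X D).1 hD).symm
    rw [hYD]
    exact ⟨fun i => (c i : ℚ_[ℓ]), fun x i => rfl⟩
  | zero => exact ⟨0, fun x i => by rw [Pi.zero_apply, zero_smul]; rfl⟩
  | add A B _ _ hA hB =>
    obtain ⟨a, ha⟩ := hA
    obtain ⟨b, hb⟩ := hB
    refine ⟨a + b, fun x i => ?_⟩
    rw [LinearMap.add_apply, Pi.add_apply, ha, hb, Pi.add_apply, add_smul]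
  | smul t A _ hA =>
    obtain ⟨a, ha⟩ := hA
    refine ⟨t • a, fun x i => ?_⟩
    rw [LinearMap.smul_apply, Pi.smul_apply, ha, Pi.smul_apply, smul_assoc]

end rational

end Pool.Agent.Helper49A
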