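import Pool.Agent.N203.RE.Defs

/-!
# Endomorphisms of a direct sum of representations: definitions
-/

set_option autoImplicit false

namespace Pool.Agent.Helper49A

open Module Pool.Agent.Y114.RM Pool.Agent.Y114.TF

variable {Γ : Type} [Group Γ] {ι : Type}

/-- The only endomorphisms of the representation `r` are the scalars. -/
def OnlyScalars {k V : Type} [Field k] [AddCommGroup V] [Module k V] (r : Representation k Γ V) :
    Prop :=
  ∀ Y : End k V, (∀ γ, r γ * Y = Y * r γ) → ∃ c : k, Y = c • (1 : End k V)

/-- The only endomorphisms of the direct sum which commute with a subgroup of finite index are those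
which act by a scalar on each summand. -/
def OnlyBlockScalars {k : Type} [Field k] {V : ι → Type} [∀ i, AddCommGroup (V i)]
    [∀ i, Module k (V i)] (ρ : ∀ i, Representation k Γ (V i)) : Prop :=
  ∀ Y : End k (∀ i, V i), (∃ Δ : Subgroup Γ, Δ.FiniteIndex ∧
    ∀ γ ∈ Δ, sumRep ρ γ * Y = Y * sumRep ρ γ) → ∃ c : ι → k, ∀ x i, Y x i = c i • x i

end Pool.Agent.Helper49A
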