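import Pool.Agent.Helper49A.Place
import Pool.Agent.Helper49A.Defs

/-!
# The endomorphisms over all finite extensions, at all primes
-/

set_option autoImplicit false
set_option linter.unusedSectionVars false

namespace Pool.Agent.Helper49A

open NumberField IsDedekindDomain Module Polynomial TensorProduct Pool.Agent.Y114.RM
  Pool.Agent.Y114.TF Pool.Agent.Y114.GF Pool.Agent.Y114.MU Pool.Agent.H204R3.GP
  Pool.Agent.R931.IR Pool.Agent.R931.BD Pool.Agent.N203.RE Pool.Agent.W571.FM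

section core

variable {K : Type} [Field K] [NumberField K] {ι : Type} [Fintype ι] [DecidableEq ι] {n : ι → ℕ}
  {w : ι → ℤ} {ℓ ℓ₀ : ℕ} [hℓ : Fact ℓ.Prime] [hℓ₀ : Fact ℓ₀.Prime]

/-- Irreducibility over `K` at `ℓ`, and over all finite extensions at `ℓ₀`, gives the same at `ℓ`. -/
theorem core (ρ : Reps Gal(AlgebraicClosure K/K) n ℓ) (hρ : Conts ρ)
    (ρ₀ : Reps Gal(AlgebraicClosure K/K) n ℓ₀) (hρ₀ : Conts ρ₀)
    (S : Set (HeightOneSpectrum (𝓞 K))) (hS : S.Finite) (P : HeightOneSpectrum (𝓞 K) → ι → ℚ[X])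
    (hP : ∀ v ∉ S, ¬ Above v ℓ → ∀ i, GoodReduction ρ i (w i) v (P v i))
    (hP₀ : ∀ v ∉ S, ¬ Above v ℓ₀ → ∀ i, GoodReduction ρ₀ i (w i) v (P v i))
    (hss : Semisimple ρ) (hss₀ : Semisimple ρ₀)
    (𝔤₀ 𝔥₀ : EndSpace n ℓ₀) (h𝔤₀ : Motivic ρ₀ 𝔤₀) {r : ℕ} (hrk : RankLE 𝔤₀ r)
    (h𝔥₀ : KillsTateTensors ρ₀ 𝔥₀) (h𝔥𝔤 : ReductiveOfRank 𝔤₀ 𝔥₀ r)
    (hstrong : OnlyBlockScalars ρ₀)
    (v₀ : HeightOneSpectrum (𝓞 K)) (hv₀S : v₀ ∉ S) (hv₀ℓ : ¬ Above v₀ ℓ) (hv₀ℓ₀ : ¬ Above v₀ ℓ₀)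
    (hind : IndepRoots r (Set.range (P v₀)))
    (hirr : ∀ i, OnlyScalars (ρ i)) : OnlyBlockScalars ρ := by
  classical
  obtain ⟨j⟩ := exists_emb ℓ
  let alg : Algebra ℚ_[ℓ] ℂ := (j.comp (algebraMap ℚ_[ℓ] (PadicAlgCl ℓ))).toAlgebra
  obtain ⟨j₀⟩ := exists_emb ℓ₀
  let alg₀ : Algebra ℚ_[ℓ₀] ℂ := (j₀.comp (algebraMap ℚ_[ℓ₀] (PadicAlgCl ℓ₀))).toAlgebra
  obtain ⟨Q, φ, hQ, hQv, hφ⟩ := frob_cm v₀
  have hchar : ∀ i, (ρ₀ i φ⁻¹).charpoly = (P v₀ i).map (algebraMap ℚ ℚ_[ℓ₀]) := fun i =>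
    ((hP₀ v₀ hv₀S hv₀ℓ₀ i).2 Q ⟨hQ.isPrime, hQv⟩ φ).2 hφ
  obtain ⟨z, hz, hzind⟩ := hind
  have hz' : ∀ j, End.HasEigenvalue ((sumRep ρ₀ φ⁻¹).baseChange ℂ) (z j) := by
    intro j
    obtain ⟨_, ⟨i, rfl⟩, hi⟩ := hz j
    exact sumRep_eigen ρ₀ φ⁻¹ (hchar i) hi
  have hiso : ∀ i, 0 < n i → ∃ v ∉ S, ¬ Above v ℓ ∧
      ∃ a, IsolatedRoot ((P v i).map (algebraMap ℚ ℂ)) a := by
    intro i hi
    obtain ⟨a, ha⟩ := isolated_of_rank alg₀ ρ₀ hρ₀ 𝔤₀ h𝔤₀ hrk hss₀ h𝔥₀ h𝔥𝔤.bracket h𝔥𝔤.le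
      h𝔥𝔤.nondeg hstrong φ⁻¹ z hz' hzind i hi
    refine ⟨v₀, hv₀S, hv₀ℓ, a, ?_⟩
    rw [hchar, Polynomial.map_map] at ha
    have h1 : (algebraMap ℚ_[ℓ₀] ℂ).comp (algebraMap ℚ ℚ_[ℓ₀]) = algebraMap ℚ ℂ :=
      Subsingleton.elim _ _
    rwa [h1] at ha
  exact endos_transfer (w := w) alg ρ hρ ρ₀ hρ₀ S hS P hP hP₀ hss hss₀ hirr hstrong hiso

/-- Only block scalars imply that all Tate endomorphisms commute with `𝔤`. -/
theorem endos_of_blockScalars {k : Type} [Field k] {Γ : Type} [Group Γ] {V : ι → Type}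
    [∀ i, AddCommGroup (V i)] [∀ i, Module k (V i)] (ρ : ∀ i, Representation k Γ (V i))
    (𝔤 : Submodule k (End k (∀ i, V i))) (hparts : ∀ X ∈ 𝔤, ∀ x i, X x i = X (Pi.single i (x i)) i)
    (h : OnlyBlockScalars ρ) : EndosCommute (sumRep ρ) 𝔤 := by
  intro Y hY X hX
  obtain ⟨c, hc⟩ := h Y hY
  refine LinearMap.ext fun x => funext fun i => ?_
  rw [End.mul_apply, End.mul_apply, hc, hparts X hX (Y x) i, hparts X hX x i, hc]
  have h1 : (Pi.single i (c i • x i) : ∀ i, V i) = c i • Pi.single i (x i) := by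
    rw [Pi.single_smul]
  rw [h1, map_smul]
  rfl

/-- Each summand has only scalar endomorphisms. -/
theorem onlyScalars_of_blockScalars {k : Type} [Field k] {Γ : Type} [Group Γ] {V : ι → Type}
    [∀ i, AddCommGroup (V i)] [∀ i, Module k (V i)] (ρ : ∀ i, Representation k Γ (V i))
    (h : OnlyBlockScalars ρ) (i : ι) : OnlyScalars (ρ i) := by
  intro Y hY
  obtain ⟨c, hc⟩ := h (LinearMap.single k V i ∘ₗ Y ∘ₗ LinearMap.proj i)
    ⟨⊤, inferInstance, fun γ _ => by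
      refine LinearMap.ext fun x => ?_
      show sumRep ρ γ (Pi.single i (Y (x i))) = Pi.single i (Y (sumRep ρ γ x i))
      have h1 : sumRep ρ γ (Pi.single i (Y (x i))) = Pi.single i (ρ i γ (Y (x i))) := by
        funext j
        show ρ j γ ((Pi.single i (Y (x i)) : ∀ i, V i) j) = _
        by_cases hj : j = i
        · subst hj
          rw [Pi.single_eq_same, Pi.single_eq_same]
        · rw [Pi.single_eq_of_ne hj, Pi.single_eq_of_ne hj, map_zero]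
      rw [h1]
      have h2 := LinearMap.congr_fun (hY γ) (x i)
      rw [End.mul_apply, End.mul_apply] at h2
      rw [h2]
      rfl⟩
  refine ⟨c i, LinearMap.ext fun x => ?_⟩
  have h1 := hc (Pi.single i x) i
  rw [Pi.single_eq_same] at h1
  rw [LinearMap.smul_apply, End.one_apply, ← h1]
  show Y x = (Pi.single i (Y ((Pi.single i x : ∀ i, V i) i)) : ∀ i, V i) i
  rw [Pi.single_eq_same, Pi.single_eq_same]

end core

end Pool.Agent.Helper49A
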