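import Pool.Agent.Helper49A.Chi

/-!
# The dichotomy
-/

set_option autoImplicit false
set_option linter.unusedSectionVars false

namespace Pool.Agent.Helper49A

open Module Polynomial TensorProduct Pool.Agent.Y114.RM Pool.Agent.TH118.SG Pool.Agent.Y114.TF
  Pool.Agent.Y114.MU Pool.Agent.H204R3.GP

section dich

variable {k : Type} [Field k] [CharZero k] [Algebra k ℂ] {V : Type} [AddCommGroup V] [Module k V]
  [FiniteDimensional k V] {G : Type} [Group G] (ρ : Representation k G V)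

/-- The extensions of all endomorphisms act irreducibly. -/
theorem span_endos (h : Inputs) {v : ℂ ⊗[k] V} (hv : v ≠ 0) :
    Submodule.span ℂ {w | ∃ T : End k V, w = T.baseChange ℂ v} = ⊤ := by
  rw [eq_top_iff]
  intro x _
  obtain ⟨φ, hφ⟩ : ∃ φ : Module.Dual ℂ (ℂ ⊗[k] V), φ v = 1 := by
    by_contra hcon
    push Not at hcon
    apply hv
    rw [← Module.forall_dual_apply_eq_zero_iff ℂ]
    intro φ
    by_contra h0
    apply hcon ((φ v)⁻¹ • φ)
    rw [LinearMap.smul_apply, smul_eq_mul, inv_mul_cancel₀ h0]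
  have h1 : (φ.smulRight x : End ℂ (ℂ ⊗[k] V)) ∈ bcS ℂ (⊤ : Submodule k (End k V)) := by
    rw [(h.bc k ℂ V ⊤).1]
    intro π
    trivial
  have h2 : (φ.smulRight x) v = x := by
    rw [LinearMap.smulRight_apply, hφ, one_smul]
  rw [← h2]
  unfold bcS at h1
  generalize (φ.smulRight x : End ℂ (ℂ ⊗[k] V)) = Y at h1
  induction h1 using Submodule.span_induction with
  | mem Y hY =>
    obtain ⟨T, -, rfl⟩ := hY
    exact Submodule.subset_span ⟨T, rfl⟩
  | zero => rw [LinearMap.zero_apply]; exact Submodule.zero_mem _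
  | add X Y _ _ hX hY => rw [LinearMap.add_apply]; exact Submodule.add_mem _ hX hY
  | smul c X _ hX => rw [LinearMap.smul_apply]; exact Submodule.smul_mem _ _ hX

theorem dichotomy (h : Inputs) (hss : FiniteIndexSemisimple ρ)
    (hirr : ∀ Y : End k V, (∀ g, ρ g * Y = Y * ρ g) → ∃ c : k, Y = c • (1 : End k V)) (u : G)
    (a : ℂ) (hiso : IsolatedRoot ((ρ u).charpoly.map (algebraMap k ℂ)) a) :
    (∀ Y ∈ tateEnd ρ, ∃ c : k, Y = c • (1 : End k V)) ∨
      ∃ g : G, ∀ x ∈ fixer ρ, LinearMap.trace k V (ρ (g * x)) = 0 := by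
  classical
  have hfix := fixer_finiteIndex ρ
  obtain ⟨N, hN, -, huN⟩ := Subgroup.exists_pow_mem_of_index_ne_zero hfix.index_ne_zero u
  set uC : End ℂ (ℂ ⊗[k] V) := (ρ u).baseChange ℂ with huC
  have hchar : (ρ u).charpoly.map (algebraMap k ℂ) = uC.charpoly := by
    rw [huC, LinearMap.charpoly_baseChange]
  rw [hchar] at hiso
  have hroot : uC.charpoly.IsRoot a := by
    by_contra hcon
    have h1 := Polynomial.rootMultiplicity_eq_zero hcon
    rw [hiso.1] at h1
    exact one_ne_zero h1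
  have heig : uC.HasEigenvalue a := by
    rw [Module.End.hasEigenvalue_iff_isRoot_charpoly]
    exact hroot
  obtain ⟨v, hv⟩ := heig.exists_hasEigenvector
  have hv0 : v ≠ 0 := hv.2
  have hone : ∀ w ∈ uC.maxGenEigenspace a, ∃ c : ℂ, w = c • v := by
    intro w hw
    have h1 : finrank ℂ (uC.maxGenEigenspace a) = 1 := by
      rw [LinearMap.finrank_maxGenEigenspace_eq]
      exact hiso.1
    have hvm : v ∈ uC.maxGenEigenspace a :=
      (Module.End.genEigenspace_le_maximal (f := uC) (μ := a) (k := 1)) hv.1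
    have h2 := (finrank_eq_one_iff_of_nonzero' (⟨v, hvm⟩ : uC.maxGenEigenspace a) (by
      intro h0
      exact hv0 (congrArg Subtype.val h0))).1 h1 ⟨w, hw⟩
    obtain ⟨c, hc⟩ := h2
    exact ⟨c, (congrArg Subtype.val hc).symm⟩
  -- the character
  have hchi : ∀ Y : End k V, ∃ c : ℂ, Y ∈ tateEnd ρ → Y.baseChange ℂ v = c • v := by
    intro Y
    by_cases hY : Y ∈ tateEnd ρ
    · have h1 := huN Y hY
      have h2 : uC ^ N * Y.baseChange ℂ = Y.baseChange ℂ * uC ^ N := by
        have h3 : (ρ (u ^ N)).baseChange ℂ = uC ^ N := by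
          rw [huC, map_pow]
          induction N with
          | zero => rw [pow_zero, pow_zero, bc_one]
          | succ m ih =>
            clear hN huN h1
            have hrec : ∀ m : ℕ, (ρ u ^ m).baseChange ℂ = (ρ u).baseChange ℂ ^ m := by
              intro m
              induction m with
              | zero => rw [pow_zero, pow_zero, bc_one]
              | succ m ih => rw [pow_succ, pow_succ, bc_mul, ih]
            exact hrec _
        rw [← h3, ← bc_mul, ← bc_mul, h1]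
      have h4 : Y.baseChange ℂ v ∈ (uC ^ N).maxGenEigenspace (a ^ N) := by
        have h5 : v ∈ (uC ^ N).maxGenEigenspace (a ^ N) := maxGen_pow_le uC a N
          ((Module.End.genEigenspace_le_maximal (f := uC) (μ := a) (k := 1)) hv.1)
        exact (Module.End.mapsTo_maxGenEigenspace_of_comm (f := uC ^ N) (g := Y.baseChange ℂ)
          h2 (a ^ N)) h5
      obtain ⟨c, hc⟩ := hone _ (maxGen_isolated uC a hiso hN h4)
      exact ⟨c, fun _ => hc⟩
    · exact ⟨0, fun h => absurd h hY⟩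
  choose χ hχ using hchi
  -- the translates of the eigenvector
  let w : G → ℂ ⊗[k] V := fun g => (ρ g).baseChange ℂ v
  have hcj : ∀ (g : G) (Y : End k V), Y ∈ tateEnd ρ → ρ g⁻¹ * Y * ρ g ∈ tateEnd ρ := by
    intro g Y hY
    have h1 := conj_mem ρ g⁻¹ hY
    rwa [inv_inv] at h1
  have hw : ∀ (g : G) (Y : End k V), Y ∈ tateEnd ρ →
      Y.baseChange ℂ (w g) = χ (ρ g⁻¹ * Y * ρ g) • w g := by
    intro g Y hY
    have h1 : Y * ρ g = ρ g * (ρ g⁻¹ * Y * ρ g) := by
      rw [mul_assoc (ρ g⁻¹), ← mul_assoc (ρ g), ← map_mul, mul_inv_cancel, map_one, one_mul]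
    have h2 : Y.baseChange ℂ (w g) = (Y * ρ g).baseChange ℂ v := by
      rw [bc_mul]
      rfl
    rw [h2, h1, bc_mul, End.mul_apply, hχ _ (hcj g Y hY), map_smul]
  have hspan : Submodule.span ℂ (Set.range w) = ⊤ := by
    rw [eq_top_iff, ← span_endos h hv0, Submodule.span_le]
    rintro _ ⟨T, rfl⟩
    have h1 : T ∈ Submodule.span k (ρ '' ((⊤ : Subgroup G) : Set G)) := by
      refine mem_span_of_commutes ρ ⊤ (fun U hU => hss ⊤ inferInstance U hU) T fun Y hY => ?_
      obtain ⟨c, rfl⟩ := hirr Y fun g => hY g (Subgroup.mem_top g)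
      rw [mul_smul_comm, smul_mul_assoc, mul_one, one_mul]
    rw [SetLike.mem_coe]
    induction h1 using Submodule.span_induction with
    | mem T hT =>
      obtain ⟨g, -, rfl⟩ := hT
      exact Submodule.subset_span ⟨g, rfl⟩
    | zero =>
      rw [LinearMap.baseChange_zero, LinearMap.zero_apply]
      exact Submodule.zero_mem _
    | add X Y _ _ hX hY =>
      rw [LinearMap.baseChange_add, LinearMap.add_apply]
      exact Submodule.add_mem _ hX hY
    | smul c X _ hX =>
      rw [LinearMap.baseChange_smul, LinearMap.smul_apply, ← algebraMap_smul ℂ c]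
      exact Submodule.smul_mem _ _ hX
  have hext : ∀ A B : End ℂ (ℂ ⊗[k] V), (∀ g, A (w g) = B (w g)) → A = B := by
    intro A B hAB
    refine LinearMap.ext fun x => ?_
    have hx : x ∈ Submodule.span ℂ (Set.range w) := by rw [hspan]; trivial
    induction hx using Submodule.span_induction with
    | mem x hx =>
      obtain ⟨g, rfl⟩ := hx
      exact hAB g
    | zero => rw [map_zero, map_zero]
    | add x y _ _ hx hy => rw [map_add, map_add, hx, hy]
    | smul c x _ hx => rw [map_smul, map_smul, hx]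
  -- the stabilizer of the character
  let S : Subgroup G :=
    { carrier := {g | ∀ Y ∈ tateEnd ρ, χ (ρ g⁻¹ * Y * ρ g) = χ Y}
      mul_mem' := by
        intro a b ha hb Y hY
        have h1 : ρ (a * b)⁻¹ * Y * ρ (a * b) = ρ b⁻¹ * (ρ a⁻¹ * Y * ρ a) * ρ b := by
          rw [mul_inv_rev, map_mul, map_mul]
          simp only [mul_assoc]
        rw [h1, hb _ (hcj a Y hY), ha Y hY]
      one_mem' := by
        intro Y _
        rw [inv_one, map_one, one_mul, mul_one]
      inv_mem' := by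
        intro a ha Y hY
        rw [inv_inv]
        have h1 := ha _ (conj_mem ρ a hY)
        have h2 : ρ a⁻¹ * (ρ a * Y * ρ a⁻¹) * ρ a = Y := by
          simp only [mul_assoc]
          rw [← map_mul, inv_mul_cancel, map_one, mul_one, ← mul_assoc, ← map_mul,
            inv_mul_cancel, map_one, one_mul]
        rw [h2] at h1
        exact h1.symm }
  have hS : ∀ g, g ∈ S ↔ ∀ Y ∈ tateEnd ρ, χ (ρ g⁻¹ * Y * ρ g) = χ Y := fun g => Iff.rfl
  have hfixconj : ∀ x ∈ fixer ρ, ∀ Y ∈ tateEnd ρ, ρ x⁻¹ * Y * ρ x = Y := by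
    intro x hx Y hY
    rw [mul_assoc, ← hx Y hY, ← mul_assoc, ← map_mul, inv_mul_cancel, map_one, one_mul]
  have hSfix : fixer ρ ≤ S := by
    intro x hx
    rw [hS]
    intro Y hY
    rw [hfixconj x hx Y hY]
  have hSfin : S.FiniteIndex := Subgroup.finiteIndex_of_le hSfix
  by_cases htop : S = ⊤
  · left
    intro Y hY
    have h1 : Y.baseChange ℂ = χ Y • (1 : End ℂ (ℂ ⊗[k] V)) := by
      refine hext _ _ fun g => ?_
      have hg : g ∈ S := by rw [htop]; trivial
      rw [hw g Y hY, (hS g).1 hg Y hY, LinearMap.smul_apply, End.one_apply]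
    refine hirr Y fun g => bc_inj (C := ℂ) ?_
    rw [bc_mul, bc_mul, h1, mul_smul_comm, smul_mul_assoc, mul_one, one_mul]
  · right
    obtain ⟨g₀, hg₀⟩ := exists_no_conj S htop
    refine ⟨g₀, fun x hx => ?_⟩
    have hcommute : ∀ Y ∈ tateEnd ρ, ∀ Z ∈ tateEnd ρ,
        Y.baseChange ℂ * Z.baseChange ℂ = Z.baseChange ℂ * Y.baseChange ℂ := by
      intro Y hY Z hZ
      refine hext _ _ fun g => ?_
      rw [End.mul_apply, End.mul_apply, hw g Z hZ, map_smul, hw g Y hY, map_smul, hw g Z hZ,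
        smul_comm]
    let A : Type := tateEnd ρ
    let F : A → End ℂ (ℂ ⊗[k] V) := fun Y => (Y.1 : End k V).baseChange ℂ
    let ψ : G → A → ℂ := fun g Y => χ (ρ g⁻¹ * (Y.1 : End k V) * ρ g)
    let J : Type := {p : A → ℂ // ∃ g, p = ψ g}
    let E : J → Submodule ℂ (ℂ ⊗[k] V) := fun p => ⨅ Y : A, End.eigenspace (F Y) (p.1 Y)
    have hE : ∀ (p : J) (z : ℂ ⊗[k] V), z ∈ E p ↔ ∀ Y : A, F Y z = p.1 Y • z := by
      intro p z
      rw [Submodule.mem_iInf]
      exact forall_congr' fun Y => Module.End.mem_eigenspace_iff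
    have hindep : iSupIndep E := by
      have h1 := Module.End.independent_iInf_maxGenEigenspace_of_forall_mapsTo F (fun Y Z φ =>
        Module.End.mapsTo_maxGenEigenspace_of_comm (f := F Z) (g := F Y)
          (hcommute _ Z.2 _ Y.2) φ)
      have h2 : iSupIndep fun p : J => ⨅ Y : A, (F Y).maxGenEigenspace (p.1 Y) :=
        h1.comp Subtype.val_injective
      refine h2.mono fun p => iInf_mono fun Y => ?_
      exact Module.End.genEigenspace_le_maximal (f := F Y) (μ := p.1 Y) (k := 1)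
    have hsup : ⨆ p, E p = ⊤ := by
      rw [eq_top_iff, ← hspan, Submodule.span_le]
      rintro _ ⟨g, rfl⟩
      refine Submodule.mem_iSup_of_mem (⟨ψ g, g, rfl⟩ : J) ?_
      rw [hE]
      intro Y
      exact hw g Y.1 Y.2
    have hint : DirectSum.IsInternal E :=
      DirectSum.isInternal_submodule_of_iSupIndep_of_iSup_eq_top hindep hsup
    let cj : G → A → A := fun g Y => ⟨ρ g⁻¹ * (Y.1 : End k V) * ρ g, hcj g Y.1 Y.2⟩
    have hψ : ∀ g g' Y, ψ (g * g') Y = ψ g' (cj g Y) := by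
      intro g g' Y
      show χ _ = χ _
      congr 1
      show ρ (g * g')⁻¹ * (Y.1 : End k V) * ρ (g * g') =
        ρ g'⁻¹ * (ρ g⁻¹ * (Y.1 : End k V) * ρ g) * ρ g'
      rw [mul_inv_rev, map_mul, map_mul]
      simp only [mul_assoc]
    let σ : J → J := fun p => ⟨fun Y => p.1 (cj g₀ Y), by
      obtain ⟨p, g, rfl⟩ := p
      exact ⟨g₀ * g, funext fun Y => (hψ g₀ g Y).symm⟩⟩
    have hσ : ∀ p, σ p ≠ p := by
      rintro ⟨p, g, rfl⟩ heq
      apply hg₀ g
      rw [hS]
      intro Z hZ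
      have h1 := congrFun (congrArg Subtype.val heq) ⟨ρ g * Z * ρ g⁻¹, conj_mem ρ g hZ⟩
      have h2 : ψ (g₀ * g) ⟨ρ g * Z * ρ g⁻¹, conj_mem ρ g hZ⟩ =
          ψ g ⟨ρ g * Z * ρ g⁻¹, conj_mem ρ g hZ⟩ := by
        rw [hψ]
        exact h1
      have h3 : ρ (g₀ * g)⁻¹ * (ρ g * Z * ρ g⁻¹) * ρ (g₀ * g) =
          ρ (g⁻¹ * g₀ * g)⁻¹ * Z * ρ (g⁻¹ * g₀ * g) := by
        simp only [mul_inv_rev, inv_inv, map_mul, mul_assoc]
      have h4 : ρ g⁻¹ * (ρ g * Z * ρ g⁻¹) * ρ g = Z := by
        simp only [mul_assoc]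
        rw [← map_mul, inv_mul_cancel, map_one, mul_one, ← mul_assoc, ← map_mul,
          inv_mul_cancel, map_one, one_mul]
      have h5 : χ (ρ (g₀ * g)⁻¹ * (ρ g * Z * ρ g⁻¹) * ρ (g₀ * g)) =
          χ (ρ g⁻¹ * (ρ g * Z * ρ g⁻¹) * ρ g) := h2
      rw [h3, h4] at h5
      exact h5
    have hmaps : ∀ p, Set.MapsTo ((ρ (g₀ * x)).baseChange ℂ) (E p) (E (σ p)) := by
      intro p z hz
      have hz' := (hE p z).1 hz
      refine (hE (σ p) _).2 fun Y => ?_
      have h1 : (Y.1 : End k V) * ρ (g₀ * x) = ρ (g₀ * x) * (ρ g₀⁻¹ * (Y.1 : End k V) * ρ g₀) := by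
        have h2 := hx _ (hcj g₀ Y.1 Y.2)
        have h4 : ρ g₀ * ρ g₀⁻¹ = 1 := by rw [← map_mul, mul_inv_cancel, map_one]
        rw [map_mul, mul_assoc (ρ g₀) (ρ x), h2, ← mul_assoc, ← mul_assoc, ← mul_assoc,
          ← mul_assoc, h4, one_mul]
      have h3 : F Y ((ρ (g₀ * x)).baseChange ℂ z) =
          ((Y.1 : End k V) * ρ (g₀ * x)).baseChange ℂ z := by
        rw [bc_mul]
        rfl
      rw [h3, h1, bc_mul, End.mul_apply]
      have h4 := hz' (cj g₀ Y)
      have h5 : (ρ g₀⁻¹ * (Y.1 : End k V) * ρ g₀).baseChange ℂ z = p.1 (cj g₀ Y) • z := h4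
      rw [h5, map_smul]
    have htr := LinearMap.trace_eq_zero_of_mapsTo_ne hint σ hσ hmaps
    rw [LinearMap.trace_baseChange] at htr
    exact (algebraMap k ℂ).injective (by rw [htr, map_zero])

end dich

end Pool.Agent.Helper49A
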