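import Pool.Agent.Helper49A.Trans

/-!
# Endomorphisms over finite extensions at all primes from one prime
-/

set_option autoImplicit false
set_option linter.unusedSectionVars false

namespace Pool.Agent.Helper49A

open NumberField IsDedekindDomain Module Polynomial TensorProduct Pool.Agent.Y114.RM
  Pool.Agent.Y114.TF Pool.Agent.Y114.GF Pool.Agent.Y114.MU Pool.Agent.H204R3.GP
  Pool.Agent.R931.IR Pool.Agent.W571.FM

section summand

variable {k : Type} [Field k] {ι : Type} [Fintype ι] [DecidableEq ι] {V : ι → Type}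
  [∀ i, AddCommGroup (V i)] [∀ i, Module k (V i)] {G : Type} [Group G]
  (ρ : ∀ i, Representation k G (V i))

theorem summand_proj [CharZero k] [∀ i, FiniteDimensional k (V i)] (hss : HasProj (sumRep ρ)) (i : ι) : HasProj (ρ i) := by
  intro Δ hΔ U hU
  obtain ⟨P, h1, h2, h3⟩ := hss Δ hΔ (U.map (LinearMap.single k V i)) (by
    rintro s hs _ ⟨u, hu, rfl⟩
    exact ⟨ρ i s u, hU s hs u hu, (sumRep_single ρ s i u).symm⟩)
  refine ⟨LinearMap.proj i ∘ₗ P ∘ₗ LinearMap.single k V i, fun v => ?_, fun u hu => ?_,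
    fun s hs v => ?_⟩
  · obtain ⟨u, hu, hu'⟩ := h1 (LinearMap.single k V i v)
    have h4 : (LinearMap.proj i ∘ₗ P ∘ₗ LinearMap.single k V i) v = u := by
      show P (LinearMap.single k V i v) i = u
      rw [← hu']
      exact Pi.single_eq_same i u
    rw [h4]
    exact hu
  · show P (LinearMap.single k V i u) i = u
    rw [h2 _ ⟨u, hu, rfl⟩]
    exact Pi.single_eq_same i u
  · show P (Pi.single i (ρ i s v)) i = ρ i s (P (Pi.single i v) i)
    rw [← sumRep_single, h3 s hs]
    rfl

theorem semisimple_of_proj {W : Type} [AddCommGroup W] [Module k W] {r : Representation k G W}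
    (h : HasProj r) : FiniteIndexSemisimple r := by
  intro Δ hΔ U hU
  obtain ⟨P, h1, h2, h3⟩ := h Δ hΔ U hU
  refine ⟨LinearMap.ker P, fun s hs u hu => ?_, ?_⟩
  · rw [LinearMap.mem_ker] at hu ⊢
    rw [h3 s hs, hu, map_zero]
  · constructor
    · rw [Submodule.disjoint_def]
      intro x hx hx'
      rw [LinearMap.mem_ker, h2 x hx] at hx'
      exact hx'
    · rw [codisjoint_iff, eq_top_iff]
      intro x _
      refine Submodule.mem_sup.2 ⟨P x, h1 x, x - P x, ?_, by abel⟩
      rw [LinearMap.mem_ker, map_sub, h2 _ (h1 x), sub_self]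

/-- Stable subspaces are trivial if there are only scalar endomorphisms. -/
theorem stable_trivial {W : Type} [AddCommGroup W] [Module k W] {r : Representation k G W}
    (h : HasProj r) (hsc : ∀ Y ∈ tateEnd r, ∃ c : k, Y = c • (1 : End k W)) (Δ : Subgroup G)
    (hΔ : Δ.FiniteIndex) (U : Submodule k W) (hU : ∀ s ∈ Δ, ∀ u ∈ U, r s u ∈ U) :
    U = ⊥ ∨ U = ⊤ := by
  obtain ⟨P, h1, h2, h3⟩ := h Δ hΔ U hU
  obtain ⟨c, hc⟩ := hsc P ⟨Δ, hΔ, fun s hs => LinearMap.ext fun v => (h3 s hs v).symm⟩
  by_cases hbot : U = ⊥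
  · exact Or.inl hbot
  · right
    obtain ⟨u, hu, hu0⟩ := Submodule.exists_mem_ne_zero_of_ne_bot hbot
    have h4 := h2 u hu
    rw [hc, LinearMap.smul_apply, End.one_apply] at h4
    have hc1 : c = 1 := by
      have h5 : c • u = (1 : k) • u := by rw [one_smul]; exact h4
      exact smul_left_injective k hu0 h5
    rw [eq_top_iff]
    intro x _
    have h5 := h1 x
    rwa [hc, hc1, one_smul, End.one_apply] at h5

/-- A nonzero intertwiner is bijective. -/
theorem bijective_of_intertwine {W W' : Type} [AddCommGroup W] [Module k W] [AddCommGroup W']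
    [Module k W'] {r : Representation k G W} {r' : Representation k G W'}
    (h : HasProj r) (hsc : ∀ Y ∈ tateEnd r, ∃ c : k, Y = c • (1 : End k W))
    (h' : HasProj r') (hsc' : ∀ Y ∈ tateEnd r', ∃ c : k, Y = c • (1 : End k W'))
    (Δ : Subgroup G) (hΔ : Δ.FiniteIndex) (T : W →ₗ[k] W')
    (hT : ∀ s ∈ Δ, ∀ v, r' s (T v) = T (r s v)) (hT0 : T ≠ 0) : Function.Bijective T := by
  constructor
  · rw [← LinearMap.ker_eq_bot]
    rcases stable_trivial h hsc Δ hΔ (LinearMap.ker T) (fun s hs u hu => by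
      rw [LinearMap.mem_ker] at hu ⊢
      rw [← hT s hs, hu, map_zero]) with h1 | h1
    · exact h1
    · exact absurd (LinearMap.ker_eq_top.1 h1) hT0
  · rw [← LinearMap.range_eq_top]
    rcases stable_trivial h' hsc' Δ hΔ (LinearMap.range T) (fun s hs u hu => by
      obtain ⟨v, rfl⟩ := hu
      exact ⟨r s v, (hT s hs v).symm⟩) with h1 | h1
    · exact absurd (LinearMap.range_eq_bot.1 h1) hT0
    · exact h1

theorem trace_eq_of_intertwine {W W' : Type} [AddCommGroup W] [Module k W] [AddCommGroup W']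
    [Module k W'] (T : W →ₗ[k] W') (hT : Function.Bijective T) (A : End k W) (B : End k W')
    (h : ∀ v, B (T v) = T (A v)) : LinearMap.trace k W A = LinearMap.trace k W' B := by
  let e := LinearEquiv.ofBijective T hT
  have h1 : e.conj A = B := by
    refine LinearMap.ext fun x => ?_
    obtain ⟨v, rfl⟩ := hT.2 x
    rw [LinearEquiv.conj_apply_apply, h]
    have h2 : e.symm (T v) = v := e.symm_apply_apply v
    rw [h2]
    rfl
  rw [← h1, LinearMap.trace_conj']

end summand

section continuity

variable {ι : Type} {n : ι → ℕ} {ℓ : ℕ} [Fact ℓ.Prime] {G : Type} [Group G] [TopologicalSpace G]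
  [IsTopologicalGroup G]

theorem continuous_apply {m : ℕ} {r : Representation ℚ_[ℓ] G (Fin m → ℚ_[ℓ])}
    (hr : Continuous fun g => LinearMap.toMatrix' (r g)) (v : Fin m → ℚ_[ℓ]) :
    Continuous fun g => r g v := by
  have h1 : (fun g => r g v) = fun g => (LinearMap.toMatrix' (r g)).mulVec v := by
    funext g
    rw [← Matrix.toLin'_apply, Matrix.toLin'_toMatrix']
  rw [h1]
  exact hr.matrix_mulVec continuous_const

/-- The subgroup of the elements which are compatible with a linear map is closed. -/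
theorem closed_intertwine {m m' : ℕ} {r : Representation ℚ_[ℓ] G (Fin m → ℚ_[ℓ])}
    (hr : Continuous fun g => LinearMap.toMatrix' (r g))
    {r' : Representation ℚ_[ℓ] G (Fin m' → ℚ_[ℓ])}
    (hr' : Continuous fun g => LinearMap.toMatrix' (r' g))
    (T : (Fin m → ℚ_[ℓ]) →ₗ[ℚ_[ℓ]] (Fin m' → ℚ_[ℓ])) :
    IsClosed {g | ∀ v, r' g (T v) = T (r g v)} := by
  have h1 : {g | ∀ v, r' g (T v) = T (r g v)} = ⋂ v, {g | r' g (T v) = T (r g v)} := by
    ext g
    simp
  rw [h1]
  refine isClosed_iInter fun v => ?_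
  have hT : Continuous T := LinearMap.continuous_of_finiteDimensional T
  exact isClosed_eq (continuous_apply hr' (T v)) (hT.comp (continuous_apply hr v))

end continuity

end Pool.Agent.Helper49A
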