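import Pool.Agent.Helper49A.Endo

/-!
# Endomorphisms over finite extensions at all primes from one prime: the theorem
-/

set_option autoImplicit false
set_option linter.unusedSectionVars false

namespace Pool.Agent.Helper49A

open NumberField IsDedekindDomain Module Polynomial TensorProduct Pool.Agent.Y114.RM
  Pool.Agent.Y114.TF Pool.Agent.Y114.GF Pool.Agent.Y114.MU Pool.Agent.H204R3.GP
  Pool.Agent.R931.IR Pool.Agent.W571.FM

section blocks

variable {k : Type} [Field k] [CharZero k] {ι : Type} [Fintype ι] [DecidableEq ι] {V : ι → Type}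
  [∀ i, AddCommGroup (V i)] [∀ i, Module k (V i)] [∀ i, FiniteDimensional k (V i)] {G : Type}
  [Group G] (ρ : ∀ i, Representation k G (V i))

theorem pr_blockScalar (i : ι) {Y : End k (∀ i, V i)} (hY : BlockScalar Y) :
    pr k V i * Y = Y * pr k V i := by
  obtain ⟨c, hc⟩ := hY
  refine LinearMap.ext fun x => funext fun j => ?_
  rw [End.mul_apply, End.mul_apply, pr_apply, pr_apply, hc, hc]
  by_cases hj : j = i
  · subst hj
    rw [Pi.single_eq_same, Pi.single_eq_same]
  · rw [Pi.single_eq_of_ne hj, Pi.single_eq_of_ne hj, smul_zero]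

theorem sumRep_blockScalar (g : G) {Y : End k (∀ i, V i)} (hY : BlockScalar Y) :
    sumRep ρ g * Y = Y * sumRep ρ g := by
  obtain ⟨c, hc⟩ := hY
  refine LinearMap.ext fun x => funext fun j => ?_
  rw [End.mul_apply, End.mul_apply, hc]
  show ρ j g (Y x j) = c j • ρ j g (x j)
  rw [hc, map_smul]

theorem blk_sumRep (g : G) (i : ι) : blk i (sumRep ρ g) = ρ i g := by
  refine LinearMap.ext fun x => ?_
  rw [blk_apply, sumRep_single, Pi.single_eq_same]

theorem blk_pr_same (i : ι) : blk i (pr k V i) = 1 := by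
  refine LinearMap.ext fun x => ?_
  rw [blk_apply, pr_apply, Pi.single_eq_same, Pi.single_eq_same, End.one_apply]

theorem blk_pr_ne {i j : ι} (h : j ≠ i) : blk j (pr k V i) = 0 := by
  refine LinearMap.ext fun x => ?_
  rw [blk_apply, pr_apply, Pi.single_eq_of_ne h, LinearMap.zero_apply]

/-- With only block scalars as endomorphisms, the operators of a subgroup of finite index span
everything. -/
theorem mem_span_of_blockScalar (hss : FiniteIndexSemisimple (sumRep ρ))
    (hstrong : ∀ Y ∈ tateEnd (sumRep ρ), BlockScalar Y) (H : Subgroup G) (hH : H.FiniteIndex)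
    (T : End k (∀ i, V i)) (hT : ∀ Y : End k (∀ i, V i), BlockScalar Y → T * Y = Y * T) :
    T ∈ Submodule.span k (sumRep ρ '' (H : Set G)) :=
  mem_span_of_commutes (sumRep ρ) H (fun U hU => hss H hH U hU) T fun Y hY =>
    hT Y (hstrong Y ⟨H, hH, hY⟩)

/-- The traces on a block do not vanish on a coset. -/
theorem exists_trace_ne (hss : FiniteIndexSemisimple (sumRep ρ))
    (hstrong : ∀ Y ∈ tateEnd (sumRep ρ), BlockScalar Y) (H : Subgroup G) (hH : H.FiniteIndex)
    (g : G) (i : ι) (hi : finrank k (V i) ≠ 0) :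
    ∃ x ∈ H, LinearMap.trace k (V i) (ρ i (g * x)) ≠ 0 := by
  by_contra hcon
  push Not at hcon
  have h1 := mem_span_of_blockScalar ρ hss hstrong H hH (sumRep ρ g⁻¹ * pr k V i) (fun Y hY => by
    rw [mul_assoc, pr_blockScalar i hY, ← mul_assoc, sumRep_blockScalar ρ _ hY, mul_assoc])
  have h2 : ∀ X ∈ Submodule.span k (sumRep ρ '' (H : Set G)),
      LinearMap.trace k (V i) (blk i (sumRep ρ g * X)) = 0 := by
    intro X hX
    induction hX using Submodule.span_induction with
    | mem X hX =>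
      obtain ⟨x, hx, rfl⟩ := hX
      rw [← map_mul, blk_sumRep]
      exact hcon x hx
    | zero => rw [mul_zero, map_zero, map_zero]
    | add X Y _ _ hX hY => rw [mul_add, map_add, map_add, hX, hY, add_zero]
    | smul c X _ hX => rw [mul_smul_comm, map_smul, map_smul, hX, smul_zero]
  have h3 := h2 _ h1
  rw [← mul_assoc, ← map_mul, mul_inv_cancel, map_one, one_mul, blk_pr_same,
    LinearMap.trace_one] at h3
  exact hi (Nat.cast_eq_zero.1 h3)

/-- The traces on two blocks are not the same. -/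
theorem exists_trace_ne_trace (hss : FiniteIndexSemisimple (sumRep ρ))
    (hstrong : ∀ Y ∈ tateEnd (sumRep ρ), BlockScalar Y) (H : Subgroup G) (hH : H.FiniteIndex)
    {i j : ι} (hij : i ≠ j) (hi : finrank k (V i) ≠ 0) :
    ∃ x ∈ H, LinearMap.trace k (V i) (ρ i x) ≠ LinearMap.trace k (V j) (ρ j x) := by
  by_contra hcon
  push Not at hcon
  have h1 := mem_span_of_blockScalar ρ hss hstrong H hH (pr k V i)
    (fun Y hY => pr_blockScalar i hY)
  have h2 : ∀ X ∈ Submodule.span k (sumRep ρ '' (H : Set G)),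
      LinearMap.trace k (V i) (blk i X) = LinearMap.trace k (V j) (blk j X) := by
    intro X hX
    induction hX using Submodule.span_induction with
    | mem X hX =>
      obtain ⟨x, hx, rfl⟩ := hX
      rw [blk_sumRep, blk_sumRep]
      exact hcon x hx
    | zero => rw [map_zero, map_zero, map_zero, map_zero]
    | add X Y _ _ hX hY => rw [map_add, map_add, map_add, map_add, hX, hY]
    | smul c X _ hX => rw [map_smul, map_smul, map_smul, map_smul, hX]
  have h3 := h2 _ h1
  rw [blk_pr_same, blk_pr_ne hij.symm, LinearMap.trace_one, map_zero] at h3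
  exact hi (Nat.cast_eq_zero.1 h3)

/-- An endomorphism is a block scalar if its diagonal blocks are scalars and the others are zero. -/
theorem blockScalar_of {Y : End k (∀ i, V i)}
    (hd : ∀ i, ∃ c : k, blk i Y = c • (1 : End k (V i)))
    (ho : ∀ i j, i ≠ j → LinearMap.proj j ∘ₗ Y ∘ₗ LinearMap.single k V i = 0) :
    BlockScalar Y := by
  choose c hc using hd
  refine ⟨c, fun x j => ?_⟩
  have h1 : x = ∑ i, LinearMap.single k V i (x i) := by
    funext j
    rw [Finset.sum_apply, Finset.sum_eq_single j]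
    · exact (Pi.single_eq_same j _).symm
    · intro i _ hij
      exact Pi.single_eq_of_ne hij.symm _
    · intro h
      exact absurd (Finset.mem_univ j) h
  have h2 : Y x j = ∑ i, Y (LinearMap.single k V i (x i)) j := by
    conv_lhs => rw [h1]
    rw [map_sum, Finset.sum_apply]
  rw [h2, Finset.sum_eq_single j]
  · have h3 := LinearMap.congr_fun (hc j) (x j)
    exact h3
  · intro i _ hij
    exact LinearMap.congr_fun (ho i j hij) (x i)
  · intro h
    exact absurd (Finset.mem_univ j) h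

end blocks

section main

variable {K : Type} [Field K] [NumberField K] {ι : Type} [Fintype ι] [DecidableEq ι] {n : ι → ℕ}
  {w : ι → ℤ} {ℓ ℓ₀ : ℕ} [hℓ : Fact ℓ.Prime] [hℓ₀ : Fact ℓ₀.Prime]

theorem endos_transfer (alg : Algebra ℚ_[ℓ] ℂ)
    (ρ : ∀ i, Representation ℚ_[ℓ] Gal(AlgebraicClosure K/K) (Fin (n i) → ℚ_[ℓ]))
    (hρ : ∀ i, Continuous fun g => LinearMap.toMatrix' (ρ i g))
    (ρ₀ : ∀ i, Representation ℚ_[ℓ₀] Gal(AlgebraicClosure K/K) (Fin (n i) → ℚ_[ℓ₀]))
    (hρ₀ : ∀ i, Continuous fun g => LinearMap.toMatrix' (ρ₀ i g))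
    (S : Set (HeightOneSpectrum (𝓞 K))) (hS : S.Finite) (P : HeightOneSpectrum (𝓞 K) → ι → ℚ[X])
    (hP : ∀ v ∉ S, ¬ Above v ℓ → ∀ i, GoodReduction ρ i (w i) v (P v i))
    (hP₀ : ∀ v ∉ S, ¬ Above v ℓ₀ → ∀ i, GoodReduction ρ₀ i (w i) v (P v i))
    (hss : FiniteIndexSemisimple (sumRep ρ)) (hss₀ : FiniteIndexSemisimple (sumRep ρ₀))
    (hirr : ∀ i, ∀ Y : End ℚ_[ℓ] (Fin (n i) → ℚ_[ℓ]), (∀ g, ρ i g * Y = Y * ρ i g) →
      ∃ c : ℚ_[ℓ], Y = c • (1 : End ℚ_[ℓ] (Fin (n i) → ℚ_[ℓ])))
    (hstrong : ∀ Y ∈ tateEnd (sumRep ρ₀), BlockScalar Y)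
    (hiso : ∀ i, 0 < n i → ∃ v ∉ S, ¬ Above v ℓ ∧
      ∃ a, IsolatedRoot ((P v i).map (algebraMap ℚ ℂ)) a) :
    ∀ Y ∈ tateEnd (sumRep ρ), BlockScalar Y := by
  classical
  have hrank₀ : ∀ i, finrank ℚ_[ℓ₀] (Fin (n i) → ℚ_[ℓ₀]) = n i := fun i => by
    rw [Module.finrank_fin_fun]
  have hpart := fun i => summand_proj ρ (hasProj_of hss) i
  -- the blocks
  have hblock : ∀ i, ∀ Y ∈ tateEnd (ρ i), ∃ c : ℚ_[ℓ], Y = c • (1 : End ℚ_[ℓ] _) := by
    intro i
    by_cases hi : n i = 0
    · intro Y _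
      refine ⟨0, ?_⟩
      have : IsEmpty (Fin (n i)) := by rw [hi]; infer_instance
      exact LinearMap.ext fun x => Subsingleton.elim _ _
    obtain ⟨v, hvS, hvℓ, a, ha⟩ := hiso i (Nat.pos_of_ne_zero hi)
    obtain ⟨Q, φ, hQ, hQv, hφ⟩ := frob_cm v
    have hchar : (ρ i φ⁻¹).charpoly = (P v i).map (algebraMap ℚ ℚ_[ℓ]) :=
      ((hP v hvS hvℓ i).2 Q ⟨hQ.isPrime, hQv⟩ φ).2 hφ
    have hiso' : IsolatedRoot ((ρ i φ⁻¹).charpoly.map (algebraMap ℚ_[ℓ] ℂ)) a := by
      rw [hchar, Polynomial.map_map]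
      have h1 : (algebraMap ℚ_[ℓ] ℂ).comp (algebraMap ℚ ℚ_[ℓ]) = algebraMap ℚ ℂ :=
        Subsingleton.elim _ _
      rw [h1]
      exact ha
    rcases dichotomy (ρ i) inputs (semisimple_of_proj (hpart i)) (hirr i) φ⁻¹ a hiso' with h1 | h1
    · exact h1
    · exfalso
      obtain ⟨g, hg⟩ := h1
      have hclosed : IsClosed (fixer (ρ i) : Set Gal(AlgebraicClosure K/K)) := by
        have h2 : (fixer (ρ i) : Set Gal(AlgebraicClosure K/K)) =
            ⋂ (Y : tateEnd (ρ i)), {g | ∀ v, ρ i g ((Y : End ℚ_[ℓ] _) v) =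
              (Y : End ℚ_[ℓ] _) (ρ i g v)} := by
          ext g
          rw [Set.mem_iInter]
          constructor
          · intro hg Y v
            exact LinearMap.congr_fun (hg Y Y.2) v
          · intro hg Y hY
            exact LinearMap.ext fun v => hg ⟨Y, hY⟩ v
        rw [h2]
        exact isClosed_iInter fun Y => closed_intertwine (hρ i) (hρ i) _
      have hfi := fixer_finiteIndex (ρ i)
      have hopen : IsOpen (fixer (ρ i) : Set Gal(AlgebraicClosure K/K)) :=
        Subgroup.isOpen_of_isClosed_of_finiteIndex _ hclosed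
      have hO : IsOpen ((fun x => g * x) '' (fixer (ρ i) : Set Gal(AlgebraicClosure K/K))) :=
        isOpenMap_mul_left g _ hopen
      have htr := transfer (w := w) ρ ρ₀ hρ₀ S hS P hP hP₀ _ hO (Pi.single i 1) (by
        rintro _ ⟨x, hx, rfl⟩
        rw [Finset.sum_eq_single i]
        · rw [Pi.single_eq_same, hg x hx, mul_zero]
        · intro j _ hj
          rw [Pi.single_eq_of_ne hj, Int.cast_zero, zero_mul]
        · intro h
          exact absurd (Finset.mem_univ i) h)
      obtain ⟨x, hx, hne⟩ := exists_trace_ne ρ₀ hss₀ hstrong (fixer (ρ i)) hfi g i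
        (by rw [hrank₀]; exact hi)
      apply hne
      have h3 := htr (g * x) ⟨x, hx, rfl⟩
      rw [Finset.sum_eq_single i] at h3
      · rw [Pi.single_eq_same, Int.cast_one, one_mul] at h3
        exact h3
      · intro j _ hj
        rw [Pi.single_eq_of_ne hj, Int.cast_zero, zero_mul]
      · intro h
        exact absurd (Finset.mem_univ i) h
  rintro Y ⟨Δ, hΔ, hY⟩
  refine blockScalar_of (fun i => ?_) fun i j hij => ?_
  · refine hblock i _ ⟨Δ, hΔ, fun γ hγ => ?_⟩
    refine LinearMap.ext fun v => ?_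
    have h1 := congrFun (LinearMap.congr_fun (hY γ hγ) (Pi.single i v)) i
    rw [End.mul_apply, End.mul_apply, sumRep_single] at h1
    exact h1
  · by_contra hT0
    set T : (Fin (n i) → ℚ_[ℓ]) →ₗ[ℚ_[ℓ]] (Fin (n j) → ℚ_[ℓ]) :=
      LinearMap.proj j ∘ₗ Y ∘ₗ LinearMap.single ℚ_[ℓ] (fun i => Fin (n i) → ℚ_[ℓ]) i with hT
    have hTΔ : ∀ s ∈ Δ, ∀ v, ρ j s (T v) = T (ρ i s v) := by
      intro s hs v
      have h1 := congrFun (LinearMap.congr_fun (hY s hs) (Pi.single i v)) j
      rw [End.mul_apply, End.mul_apply, sumRep_single] at h1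
      exact h1
    have hbij := bijective_of_intertwine (hpart i) (hblock i) (hpart j) (hblock j) Δ hΔ T hTΔ hT0
    let H : Subgroup Gal(AlgebraicClosure K/K) :=
      { carrier := {g | ∀ v, ρ j g (T v) = T (ρ i g v)}
        mul_mem' := by
          intro a b ha hb v
          rw [map_mul, End.mul_apply, hb, ha, map_mul, End.mul_apply]
        one_mem' := by
          intro v
          rw [map_one, map_one, End.one_apply, End.one_apply]
        inv_mem' := by
          intro a ha v
          have h1 := ha (ρ i a⁻¹ v)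
          have h2 : ρ i a (ρ i a⁻¹ v) = v := by
            rw [← End.mul_apply, ← map_mul, mul_inv_cancel, map_one, End.one_apply]
          rw [h2] at h1
          rw [← h1, ← End.mul_apply, ← map_mul, inv_mul_cancel, map_one, End.one_apply] }
    have hHcl : IsClosed (H : Set Gal(AlgebraicClosure K/K)) :=
      closed_intertwine (hρ i) (hρ j) T
    have hHfi : H.FiniteIndex := Subgroup.finiteIndex_of_le (H := Δ) fun s hs => hTΔ s hs
    have hHo : IsOpen (H : Set Gal(AlgebraicClosure K/K)) :=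
      Subgroup.isOpen_of_isClosed_of_finiteIndex _ hHcl
    have hni : n i ≠ 0 := by
      intro h0
      apply hT0
      have : IsEmpty (Fin (n i)) := by rw [h0]; infer_instance
      refine LinearMap.ext fun x => ?_
      have h1 : x = 0 := Subsingleton.elim _ _
      rw [h1, map_zero, map_zero]
    have hsum : ∀ {k : Type} [Field k] (f : ι → k),
        ∑ l, (((Pi.single i 1 : ι → ℤ) l - (Pi.single j 1 : ι → ℤ) l : ℤ) : k) * f l =
          f i - f j := by
      intro k _ f
      have h1 : ∀ m : ι, ∑ l, (((Pi.single m 1 : ι → ℤ) l : ℤ) : k) * f l = f m := by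
        intro m
        rw [Finset.sum_eq_single m]
        · rw [Pi.single_eq_same, Int.cast_one, one_mul]
        · intro l _ hl
          rw [Pi.single_eq_of_ne hl, Int.cast_zero, zero_mul]
        · intro h
          exact absurd (Finset.mem_univ m) h
      rw [← h1 i, ← h1 j, ← Finset.sum_sub_distrib]
      refine Finset.sum_congr rfl fun l _ => ?_
      rw [Int.cast_sub, sub_mul]
    have htr := transfer (w := w) ρ ρ₀ hρ₀ S hS P hP hP₀ _ hHo
      (fun l => (Pi.single i 1 : ι → ℤ) l - (Pi.single j 1 : ι → ℤ) l) (by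
        intro g hg
        rw [hsum fun l => LinearMap.trace ℚ_[ℓ] _ (ρ l g), sub_eq_zero]
        exact trace_eq_of_intertwine T hbij _ _ hg)
    obtain ⟨x, hx, hne⟩ := exists_trace_ne_trace ρ₀ hss₀ hstrong H hHfi hij
      (by rw [hrank₀]; exact hni)
    apply hne
    have h3 := htr x hx
    rw [hsum fun l => LinearMap.trace ℚ_[ℓ₀] _ (ρ₀ l x), sub_eq_zero] at h3
    exact h3

end main

end Pool.Agent.Helper49A
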