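import Mathlib
import Pool.Agent.Y114.RM.Torus

/-!
# The extremal weight of an irreducible representation has multiplicity one
-/

set_option autoImplicit false
set_option linter.unusedSectionVars false

namespace Pool.Agent.Helper49A

open Module Pool.Agent.Y114.RM Pool.Agent.TH118.SG

section ext

variable {V : Type} [AddCommGroup V] [Module ℂ V] [FiniteDimensional ℂ V]

theorem eig_nonreal {d : End ℂ V} (hdiag : ⨆ x : ℝ, End.eigenspace d (x : ℂ) = ⊤) {μ : ℂ}
    (hμ : ∀ x : ℝ, μ ≠ x) : End.eigenspace d μ = ⊥ := by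
  have h1 := End.eigenspaces_iSupIndep d μ
  have h2 : (⊤ : Submodule ℂ V) ≤ ⨆ (ν : ℂ) (_ : ν ≠ μ), End.eigenspace d ν := by
    rw [← hdiag]
    exact iSup_le fun x => le_iSup₂_of_le (x : ℂ) (fun h => hμ x h.symm) le_rfl
  exact disjoint_top.1 (h1.mono_right h2)

theorem shift {d X : End ℂ V} {μ ν : ℂ} (hX : adE d X = ν • X) {v : V}
    (hv : v ∈ End.eigenspace d μ) : X v ∈ End.eigenspace d (μ + ν) := by
  rw [End.mem_eigenspace_iff] at hv ⊢
  have h1 := LinearMap.congr_fun hX v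
  rw [adE_apply, LinearMap.sub_apply, End.mul_apply, End.mul_apply, hv, map_smul,
    LinearMap.smul_apply, sub_eq_iff_eq_add] at h1
  rw [h1, add_comm μ, add_smul]

theorem extremal (L : Submodule ℂ (End ℂ V)) (hL : IsLie L) (d : End ℂ V) (hd : d ∈ L)
    (hdiag : ⨆ x : ℝ, End.eigenspace d (x : ℂ) = ⊤)
    (hadiag : ⨆ μ : ℂ, End.eigenspace (adE d) μ = ⊤)
    (hcen : ∀ X ∈ L, d * X = X * d → ∀ μ : ℂ, ∃ c : ℂ, ∀ v ∈ End.eigenspace d μ, X v = c • v)
    (U : Submodule ℂ V) (hU : ∀ X ∈ L, ∀ u ∈ U, X u ∈ U) (hU0 : U ≠ ⊥)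
    (hsimple : ∀ W ≤ U, (∀ X ∈ L, ∀ w ∈ W, X w ∈ W) → W ≠ ⊥ → W = U) :
    ∃ (m : ℝ) (v : V), v ≠ 0 ∧ v ∈ U ∧ v ∈ End.eigenspace d (m : ℂ) ∧
      ∀ u ∈ U, u ∈ End.eigenspace d (m : ℂ) → ∃ c : ℂ, u = c • v := by
  classical
  -- the weights on `U`
  have hUd : ∀ u ∈ U, d u ∈ U := hU d hd
  have hUsup : U = ⨆ x : ℝ, U ⊓ End.eigenspace d (x : ℂ) := by
    have h1 := Submodule.inf_iSup_genEigenspace (p := U) (f := d) hUd 1
    have h2 : ⨆ μ : ℂ, d.genEigenspace μ 1 = ⊤ := by
      rw [eq_top_iff, ← hdiag]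
      exact iSup_le fun x => le_iSup (fun μ : ℂ => d.genEigenspace μ 1) (x : ℂ)
    rw [h2, inf_top_eq] at h1
    refine le_antisymm ?_ (iSup_le fun x => inf_le_left)
    refine h1.le.trans (iSup_le fun μ => ?_)
    by_cases hμ : ∃ x : ℝ, μ = x
    · obtain ⟨x, rfl⟩ := hμ
      exact le_iSup (fun x : ℝ => U ⊓ End.eigenspace d (x : ℂ)) x
    · push Not at hμ
      have h3 : d.genEigenspace μ 1 = ⊥ := eig_nonreal hdiag hμ
      rw [h3, inf_bot_eq]
      exact bot_le
  let S : Set ℝ := {x | U ⊓ End.eigenspace d (x : ℂ) ≠ ⊥}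
  have hSfin : S.Finite := by
    have h1 : (Complex.ofReal '' S).Finite := by
      refine (End.finite_hasEigenvalue d).subset ?_
      rintro _ ⟨x, hx, rfl⟩
      intro h
      apply hx
      rw [eq_bot_iff]
      have h2 : End.eigenspace d (x : ℂ) = ⊥ := h
      rw [h2]
      exact inf_le_right
    exact Set.Finite.of_finite_image h1 Complex.ofReal_injective.injOn
  have hSne : S.Nonempty := by
    by_contra h
    rw [Set.not_nonempty_iff_eq_empty] at h
    apply hU0
    rw [hUsup, eq_bot_iff]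
    refine iSup_le fun x => ?_
    have h2 : x ∉ S := by rw [h]; exact Set.notMem_empty x
    have h3 : U ⊓ End.eigenspace d (x : ℂ) = ⊥ := by
      by_contra h4
      exact h2 h4
    rw [h3]
  obtain ⟨m, hmS, hmax⟩ := hSfin.exists_maximalFor id S hSne
  have hmax' : ∀ x : ℝ, m < x → U ⊓ End.eigenspace d (x : ℂ) = ⊥ := by
    intro x hx
    by_contra h
    exact absurd (hmax h hx.le) (not_le.2 hx)
  obtain ⟨v, hvm, hv0⟩ := Submodule.exists_mem_ne_zero_of_ne_bot hmS
  obtain ⟨hvU, hvE⟩ := Submodule.mem_inf.1 hvm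
  refine ⟨m, v, hv0, hvU, hvE, ?_⟩
  -- lowering operators
  let Neg : Set (End ℂ V) := {X | X ∈ L ∧ ∃ ν : ℂ, ν.re < 0 ∧ adE d X = ν • X}
  let W : Submodule ℂ V := sInf {W | v ∈ W ∧ ∀ X ∈ Neg, ∀ w ∈ W, X w ∈ W}
  have hvW : v ∈ W := by
    rw [Submodule.mem_sInf]
    exact fun W' hW' => hW'.1
  have hWNeg : ∀ X ∈ Neg, ∀ w ∈ W, X w ∈ W := by
    intro X hX w hw
    rw [Submodule.mem_sInf] at hw ⊢
    exact fun W' hW' => hW'.2 X hX w (hw W' hW')
  have hWle : ∀ W' : Submodule ℂ V, v ∈ W' → (∀ X ∈ Neg, ∀ w ∈ W', X w ∈ W') → W ≤ W' :=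
    fun W' h1 h2 => sInf_le ⟨h1, h2⟩
  -- homogeneous components
  have hhom : ∀ X ∈ L, X ∈ ⨆ μ : ℂ, L ⊓ End.eigenspace (adE d) μ := by
    intro X hX
    have h1 := Submodule.inf_iSup_genEigenspace (p := L) (f := adE d) (hL.adE_mem hd) 1
    have h2 : ⨆ μ : ℂ, (adE d).genEigenspace μ 1 = ⊤ := hadiag
    rw [h2, inf_top_eq] at h1
    have h3 : X ∈ ⨆ μ : ℂ, L ⊓ (adE d).genEigenspace μ 1 := h1 ▸ hX
    exact h3
  have hvL : ∀ X ∈ L, X v ∈ W := by
    intro X hX
    have h1 := hhom X hX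
    refine Submodule.iSup_induction (fun μ : ℂ => L ⊓ End.eigenspace (adE d) μ)
      (motive := fun X => X v ∈ W) h1 ?_ ?_ ?_
    · intro μ X hX
      obtain ⟨hXL, hXμ⟩ := Submodule.mem_inf.1 hX
      rw [End.mem_eigenspace_iff] at hXμ
      rcases lt_trichotomy μ.re 0 with h | h | h
      · exact hWNeg X ⟨hXL, μ, h, hXμ⟩ v hvW
      · by_cases hμ : μ = 0
        · rw [hμ, zero_smul, adE_apply, sub_eq_zero] at hXμ
          obtain ⟨c, hc⟩ := hcen X hXL hXμ (m : ℂ)
          rw [hc v hvE]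
          exact W.smul_mem c hvW
        · have h3 := shift hXμ hvE
          have h4 : End.eigenspace d ((m : ℂ) + μ) = ⊥ := by
            refine eig_nonreal hdiag fun x hx => hμ ?_
            apply Complex.ext
            · rw [h, Complex.zero_re]
            · have h5 := congrArg Complex.im hx
              rw [Complex.add_im, Complex.ofReal_im, Complex.ofReal_im, zero_add] at h5
              rw [h5, Complex.zero_im]
          rw [h4, Submodule.mem_bot] at h3
          rw [h3]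
          exact W.zero_mem
      · have h3 := shift hXμ hvE
        by_cases hr : ∃ x : ℝ, (m : ℂ) + μ = x
        · obtain ⟨x, hx⟩ := hr
          have hmx : m < x := by
            have h5 := congrArg Complex.re hx
            rw [Complex.add_re, Complex.ofReal_re, Complex.ofReal_re] at h5
            linarith
          rw [hx] at h3
          have h6 : X v ∈ U ⊓ End.eigenspace d (x : ℂ) := ⟨hU X hXL v hvU, h3⟩
          rw [hmax' x hmx, Submodule.mem_bot] at h6
          rw [h6]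
          exact W.zero_mem
        · push Not at hr
          rw [eig_nonreal hdiag hr, Submodule.mem_bot] at h3
          rw [h3]
          exact W.zero_mem
    · rw [LinearMap.zero_apply]
      exact W.zero_mem
    · intro X Y hX hY
      rw [LinearMap.add_apply]
      exact W.add_mem hX hY
  have hWL : ∀ w ∈ W, ∀ X ∈ L, X w ∈ W := by
    let W' : Submodule ℂ V :=
      { carrier := {w | w ∈ W ∧ ∀ X ∈ L, X w ∈ W}
        add_mem' := by
          rintro a b ⟨ha, ha'⟩ ⟨hb, hb'⟩
          refine ⟨W.add_mem ha hb, fun X hX => ?_⟩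
          rw [map_add]
          exact W.add_mem (ha' X hX) (hb' X hX)
        zero_mem' := ⟨W.zero_mem, fun X _ => by rw [map_zero]; exact W.zero_mem⟩
        smul_mem' := by
          rintro c a ⟨ha, ha'⟩
          refine ⟨W.smul_mem c ha, fun X hX => ?_⟩
          rw [map_smul]
          exact W.smul_mem c (ha' X hX) }
    have h1 : W ≤ W' := by
      refine hWle W' ⟨hvW, hvL⟩ ?_
      rintro N hN w ⟨hw, hw'⟩
      refine ⟨hWNeg N hN w hw, fun X hX => ?_⟩
      have h2 : X (N w) = N (X w) + (X * N - N * X) w := by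
        rw [LinearMap.sub_apply, End.mul_apply, End.mul_apply, add_sub_cancel]
      rw [h2]
      exact W.add_mem (hWNeg N hN _ (hw' X hX)) (hw' _ (hL X hX N hN.1))
    exact fun w hw => (h1 hw).2
  have hWU : W ≤ U := hWle U hvU fun X hX w hw => hU X hX.1 w hw
  have hWeq : W = U := hsimple W hWU (fun X hX w hw => hWL w hw X hX) (by
    intro h
    rw [h, Submodule.mem_bot] at hvW
    exact hv0 hvW)
  -- the lower part
  let Z : Submodule ℂ V := Submodule.span ℂ {v} ⊔ ⨆ (x : ℝ) (_ : x < m), End.eigenspace d (x : ℂ)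
  have hlow : ∀ (x : ℝ), x ≤ m → ∀ N ∈ Neg, ∀ w ∈ End.eigenspace d (x : ℂ),
      N w ∈ ⨆ (x : ℝ) (_ : x < m), End.eigenspace d (x : ℂ) := by
    rintro x hx N ⟨hNL, ν, hν, hNν⟩ w hw
    have h3 := shift hNν hw
    by_cases hr : ∃ y : ℝ, (x : ℂ) + ν = y
    · obtain ⟨y, hy⟩ := hr
      have hyx : y < m := by
        have h5 := congrArg Complex.re hy
        rw [Complex.add_re, Complex.ofReal_re, Complex.ofReal_re] at h5
        linarith
      rw [hy] at h3
      exact Submodule.mem_iSup_of_mem y (Submodule.mem_iSup_of_mem hyx h3)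
    · push Not at hr
      rw [eig_nonreal hdiag hr, Submodule.mem_bot] at h3
      rw [h3]
      exact Submodule.zero_mem _
  have hWZ : W ≤ Z := by
    refine hWle Z (Submodule.mem_sup_left (Submodule.mem_span_singleton_self v)) ?_
    intro N hN w hw
    obtain ⟨a, ha, b, hb, rfl⟩ := Submodule.mem_sup.1 hw
    rw [map_add]
    refine Z.add_mem ?_ ?_
    · obtain ⟨c, rfl⟩ := Submodule.mem_span_singleton.1 ha
      rw [map_smul]
      exact Z.smul_mem c (Submodule.mem_sup_right (hlow m le_rfl N hN v hvE))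
    · refine Submodule.mem_sup_right ?_
      refine Submodule.iSup_induction (fun x : ℝ => ⨆ (_ : x < m), End.eigenspace d (x : ℂ))
        (motive := fun b => N b ∈ ⨆ (x : ℝ) (_ : x < m), End.eigenspace d (x : ℂ)) hb ?_ ?_ ?_
      · intro x b hb
        by_cases hx : x < m
        · rw [iSup_pos hx] at hb
          exact hlow x hx.le N hN b hb
        · rw [iSup_neg hx, Submodule.mem_bot] at hb
          rw [hb, map_zero]
          exact Submodule.zero_mem _
      · rw [map_zero]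
        exact Submodule.zero_mem _
      · intro a b ha hb
        rw [map_add]
        exact Submodule.add_mem _ ha hb
  intro u huU huE
  have hu : u ∈ Z := hWZ (hWeq ▸ huU)
  obtain ⟨a, ha, b, hb, rfl⟩ := Submodule.mem_sup.1 hu
  obtain ⟨c, rfl⟩ := Submodule.mem_span_singleton.1 ha
  refine ⟨c, ?_⟩
  have hbE : b ∈ End.eigenspace d (m : ℂ) := by
    have h1 := Submodule.sub_mem _ huE (Submodule.smul_mem _ c hvE)
    rwa [add_sub_cancel_left] at h1
  have hdis := End.eigenspaces_iSupIndep d (m : ℂ)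
  have hb' : b ∈ ⨆ (ν : ℂ) (_ : ν ≠ (m : ℂ)), End.eigenspace d ν := by
    have h1 : (⨆ (x : ℝ) (_ : x < m), End.eigenspace d (x : ℂ)) ≤
        ⨆ (ν : ℂ) (_ : ν ≠ (m : ℂ)), End.eigenspace d ν :=
      iSup₂_le fun x hx => le_iSup₂_of_le (x : ℂ)
        (fun h => hx.ne (Complex.ofReal_injective h)) le_rfl
    exact h1 hb
  have hb0 : b = 0 := by
    have h1 := (Submodule.disjoint_def.1 hdis) b hbE hb'
    exact h1
  rw [hb0, add_zero]

end ext

end Pool.Agent.Helper49A
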