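import Mathlib

/-!
# Additive functions on the multiplicative group which separate finitely many numbers, up to roots of
unity
-/

set_option autoImplicit false

namespace Pool.Agent.Helper49A

theorem exists_one (c : ℂˣ) (hc : ∀ n : ℕ, 0 < n → c ^ n ≠ 1) :
    ∃ θ : Additive ℂˣ →+ ℚ, θ (Additive.ofMul c) = 1 := by
  have hB : Module.Baer ℤ ℚ := Module.Baer.of_divisible ℚ
  let f : ℤ →ₗ[ℤ] Additive ℂˣ := LinearMap.toSpanSingleton ℤ (Additive ℂˣ) (Additive.ofMul c)
  have hf : Function.Injective f := by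
    rw [injective_iff_map_eq_zero]
    intro n hn
    have h1 : c ^ n = 1 := by
      have h2 : n • Additive.ofMul c = 0 := hn
      rwa [← ofMul_zpow, ofMul_eq_zero] at h2
    by_contra hne
    have h3 : c ^ n.natAbs = 1 := by
      rcases Int.natAbs_eq n with h | h
      · rw [h, zpow_natCast] at h1
        exact h1
      · rw [h, zpow_neg, zpow_natCast, inv_eq_one] at h1
        exact h1
    exact hc _ (Int.natAbs_pos.2 hne) h3
  obtain ⟨h, hh⟩ := Module.Baer.extension_property hB f hf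
    (LinearMap.toSpanSingleton ℤ ℚ (1 : ℚ))
  refine ⟨h.toAddMonoidHom, ?_⟩
  have h1 := LinearMap.congr_fun hh 1
  rw [LinearMap.comp_apply] at h1
  have h2 : f 1 = Additive.ofMul c := one_smul ℤ _
  rw [h2, LinearMap.toSpanSingleton_apply, one_smul] at h1
  exact h1

/-- Two numbers whose quotient is a root of unity. -/
def Commens (a b : ℂ) : Prop := ∃ n : ℕ, 0 < n ∧ a ^ n = b ^ n

theorem exists_separating (B : Finset ℂˣ) : ∃ θ : Additive ℂˣ →+ ℚ, ∀ a ∈ B, ∀ b ∈ B,
    θ (Additive.ofMul a) = θ (Additive.ofMul b) → Commens a b := by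
  classical
  let ι : Type := {x : B × B // ¬ Commens (x.1 : ℂˣ) (x.2 : ℂˣ)}
  let p : ι → Submodule ℚ (Additive ℂˣ →+ ℚ) := fun x =>
    { carrier := {θ | θ (Additive.ofMul ((x.1.1 : ℂˣ) / (x.1.2 : ℂˣ))) = 0}
      add_mem' := by
        intro θ θ' h h'
        simp only [Set.mem_setOf_eq] at h h' ⊢
        rw [AddMonoidHom.add_apply, h, h', add_zero]
      zero_mem' := rfl
      smul_mem' := by
        intro c θ h
        simp only [Set.mem_setOf_eq] at h ⊢
        rw [AddMonoidHom.smul_apply, h, smul_zero] }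
  have hp : ∀ x, p x ≠ ⊤ := by
    intro x h
    obtain ⟨θ, hθ⟩ := exists_one ((x.1.1 : ℂˣ) / (x.1.2 : ℂˣ)) (by
      intro n hn h1
      apply x.2
      refine ⟨n, hn, ?_⟩
      rw [div_pow, div_eq_one] at h1
      exact_mod_cast congrArg (fun y : ℂˣ => (y : ℂ)) h1)
    have h1 : θ ∈ p x := by rw [h]; trivial
    have h2 : θ (Additive.ofMul ((x.1.1 : ℂˣ) / (x.1.2 : ℂˣ))) = 0 := h1
    rw [hθ] at h2
    exact one_ne_zero h2
  obtain ⟨θ, hθ⟩ := Submodule.exists_forall_notMem_of_forall_ne_top p hp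
  refine ⟨θ, fun a ha b hb hab => ?_⟩
  by_contra hne
  apply hθ ⟨(⟨a, ha⟩, ⟨b, hb⟩), hne⟩
  show θ (Additive.ofMul (a / b)) = 0
  rw [ofMul_div, map_sub, hab, sub_self]

end Pool.Agent.Helper49A
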