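import Pool.Agent.Helper49A.Extr
import Pool.Agent.Helper49A.Sep

/-!
# Isolated eigenvalues: a group element whose torus is its own centralizer has an isolated simple
eigenvalue on an irreducible summand
-/

set_option autoImplicit false
set_option linter.unusedSectionVars false

namespace Pool.Agent.Helper49A

open Module Polynomial TensorProduct Pool.Agent.Y114.RM Pool.Agent.TH118.SG Pool.Agent.Y114.TF
  Pool.Agent.Y114.MU Pool.Agent.H204R3.GP

theorem Commens.symm {a b : ℂ} (h : Commens a b) : Commens b a := by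
  obtain ⟨n, hn, h⟩ := h
  exact ⟨n, hn, h.symm⟩

theorem Commens.trans {a b c : ℂ} (h : Commens a b) (h' : Commens b c) : Commens a c := by
  obtain ⟨n, hn, h⟩ := h
  obtain ⟨m, hm, h'⟩ := h'
  refine ⟨n * m, Nat.mul_pos hn hm, ?_⟩
  rw [pow_mul, h, ← pow_mul, mul_comm n m, pow_mul, h', ← pow_mul]

theorem ext0_commens (θ : Additive ℂˣ →+ ℂ) {a b : ℂ} (h : Commens a b) :
    ext0 θ a = ext0 θ b := by
  obtain ⟨n, hn, h⟩ := h
  have h1 := ext0_pow θ a hn
  have h2 := ext0_pow θ b hn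
  rw [h, h2] at h1
  have h3 : (n : ℂ) ≠ 0 := Nat.cast_ne_zero.2 hn.ne'
  exact (mul_left_cancel₀ h3 h1).symm

section torus

variable {V : Type} [AddCommGroup V] [Module ℂ V] [FiniteDimensional ℂ V]

theorem isolated_torus (h : Inputs) (g g' : End ℂ V) (hgg' : g * g' = 1) (hg'g : g' * g = 1)
    (L : Submodule ℂ (End ℂ V)) (hL : IsLie L) (ht : tor g ≤ L)
    (hcen : ∀ x ∈ L, (∀ a ∈ tor g, a * x = x * a) → x ∈ tor g)
    (U : Submodule ℂ V) (hU : ∀ X ∈ L, ∀ u ∈ U, X u ∈ U) (hU0 : U ≠ ⊥)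
    (hsimple : ∀ W ≤ U, (∀ X ∈ L, ∀ w ∈ W, X w ∈ W) → W ≠ ⊥ → W = U)
    (hUg : ∀ u ∈ U, g u ∈ U) :
    ∃ (a : ℂ) (v : V), v ≠ 0 ∧ v ∈ U ∧ g v = a • v ∧
      ∀ b, Commens b a → ∀ w ∈ U, w ∈ g.maxGenEigenspace b → ∃ c : ℂ, w = c • v := by
  classical
  have hinj : Function.Injective g := injective_of_mul hg'g
  -- the eigenvalues
  have heig0 : ∀ β, g.maxGenEigenspace β ≠ ⊥ → β ≠ 0 := by
    rintro β hβ rfl
    have h1 : g.HasUnifEigenvalue 0 ⊤ := hβ
    have h3 : g.HasEigenvalue 0 := h1.lt one_pos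
    obtain ⟨v, hv⟩ := h3.exists_hasEigenvector
    have h2 := hv.apply_eq_smul
    rw [zero_smul] at h2
    exact hv.2 (hinj (by rw [h2, map_zero]))
  have hfin : {β | g.maxGenEigenspace β ≠ ⊥}.Finite := by
    refine (Module.End.finite_hasEigenvalue g).subset ?_
    intro β hβ
    by_contra h
    have h1 : g.HasUnifEigenvalue β ⊤ := hβ
    exact h (h1.lt one_pos)
  obtain ⟨θ, hθ⟩ := exists_separating (hfin.toFinset.attach.image fun β : {x // x ∈ hfin.toFinset} =>
    Units.mk0 (β : ℂ) (heig0 β ((Set.Finite.mem_toFinset hfin).1 β.2)))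
  let θC : Additive ℂˣ →+ ℂ := (Rat.castHom ℂ).toAddMonoidHom.comp θ
  have hext : ∀ β (hβ : β ≠ 0), ext0 θC β = ((θ (Additive.ofMul (Units.mk0 β hβ)) : ℚ) : ℂ) := by
    intro β hβ
    rw [ext0_ne _ hβ]
    rfl
  have hsep : ∀ β β', g.maxGenEigenspace β ≠ ⊥ → g.maxGenEigenspace β' ≠ ⊥ →
      ext0 θC β = ext0 θC β' → Commens β β' := by
    intro β β' hβ hβ' heq
    rw [hext β (heig0 β hβ), hext β' (heig0 β' hβ'), Rat.cast_inj] at heq
    have h1 := hθ (Units.mk0 β (heig0 β hβ)) (Finset.mem_image.2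
        ⟨⟨β, (Set.Finite.mem_toFinset hfin).2 hβ⟩, Finset.mem_attach _ _, rfl⟩)
      (Units.mk0 β' (heig0 β' hβ')) (Finset.mem_image.2
        ⟨⟨β', (Set.Finite.mem_toFinset hfin).2 hβ'⟩, Finset.mem_attach _ _, rfl⟩) heq
    exact h1
  have hreal : ∀ β, ∃ x : ℝ, ext0 θC β = (x : ℂ) := by
    intro β
    by_cases hβ : β = 0
    · exact ⟨0, by rw [hβ, ext0_zero, Complex.ofReal_zero]⟩
    · exact ⟨((θ (Additive.ofMul (Units.mk0 β hβ)) : ℚ) : ℝ), by rw [hext β hβ]; push_cast; rfl⟩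
  obtain ⟨d, hd⟩ := exists_op g (fun z => ext0 θC z)
  have hdop : IsOp θC g d := hd
  have hdtor : d ∈ tor g := ⟨θC, hdop⟩
  have hgen : ∀ β, ∀ x ∈ g.maxGenEigenspace β, g x ∈ g.maxGenEigenspace β := by
    intro β x hx
    exact (Module.End.mapsTo_maxGenEigenspace_of_comm (Commute.refl g) β) hx
  have hdg : d * g = g * d := by
    refine op_ext g fun β x hx => ?_
    rw [Module.End.mul_apply, Module.End.mul_apply, hd β x hx, map_smul, hd β _ (hgen β x hx)]
  have hdiag : ⨆ x : ℝ, End.eigenspace d (x : ℂ) = ⊤ := by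
    rw [eq_top_iff, ← Module.End.iSup_maxGenEigenspace_eq_top g]
    refine iSup_le fun β => ?_
    obtain ⟨x, hx⟩ := hreal β
    refine le_trans ?_ (le_iSup _ x)
    intro y hy
    rw [Module.End.mem_eigenspace_iff, hd β y hy, hx]
  have hadiag : ⨆ μ : ℂ, End.eigenspace (adE d) μ = ⊤ :=
    tor_diag (AdE g g') (adE d) ⟨θC, h.ad ℂ _ θC g g' d hgg' hg'g hdop⟩
  -- elements of the torus are scalars on the eigenspaces of `d`
  have hscal : ∀ a ∈ tor g, ∀ μ : ℂ, ∃ c : ℂ, ∀ v ∈ End.eigenspace d μ, a v = c • v := by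
    rintro a ⟨θ', ha⟩ μ
    have hst : ∀ x ∈ End.eigenspace d μ, g x ∈ End.eigenspace d μ := by
      intro x hx
      rw [Module.End.mem_eigenspace_iff] at hx ⊢
      have h1 := LinearMap.congr_fun hdg x
      rw [Module.End.mul_apply, Module.End.mul_apply, hx, map_smul] at h1
      exact h1
    have h1 := Submodule.inf_iSup_genEigenspace (p := End.eigenspace d μ) (f := g) hst ⊤
    have h2 : ⨆ μ : ℂ, g.genEigenspace μ ⊤ = ⊤ := Module.End.iSup_maxGenEigenspace_eq_top g
    rw [h2, inf_top_eq] at h1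
    by_cases hbot : End.eigenspace d μ = ⊥
    · refine ⟨0, fun v hv => ?_⟩
      rw [hbot, Submodule.mem_bot] at hv
      rw [hv, map_zero, smul_zero]
    · obtain ⟨β₀, hβ₀⟩ : ∃ β₀, End.eigenspace d μ ⊓ g.genEigenspace β₀ ⊤ ≠ ⊥ := by
        by_contra hcon
        push Not at hcon
        apply hbot
        rw [h1, eq_bot_iff]
        exact iSup_le fun β => (hcon β).le
      have hval : ∀ β, End.eigenspace d μ ⊓ g.genEigenspace β ⊤ ≠ ⊥ →
          g.maxGenEigenspace β ≠ ⊥ ∧ ext0 θC β = μ := by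
        intro β hβ
        obtain ⟨x, hx, hx0⟩ := Submodule.exists_mem_ne_zero_of_ne_bot hβ
        obtain ⟨hx1, hx2⟩ := Submodule.mem_inf.1 hx
        refine ⟨fun h => hx0 ?_, ?_⟩
        · have h3 : x ∈ g.maxGenEigenspace β := hx2
          rw [h, Submodule.mem_bot] at h3
          exact h3
        · rw [Module.End.mem_eigenspace_iff, hd β x hx2] at hx1
          exact smul_left_injective ℂ hx0 hx1
      refine ⟨ext0 θ' β₀, fun v hv => ?_⟩
      have hv' : v ∈ ⨆ β, End.eigenspace d μ ⊓ g.genEigenspace β ⊤ := h1 ▸ hv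
      refine Submodule.iSup_induction (fun β => End.eigenspace d μ ⊓ g.genEigenspace β ⊤)
        (motive := fun v => a v = ext0 θ' β₀ • v) hv' ?_ ?_ ?_
      · intro β x hx
        by_cases hβ : End.eigenspace d μ ⊓ g.genEigenspace β ⊤ = ⊥
        · rw [hβ, Submodule.mem_bot] at hx
          rw [hx, map_zero, smul_zero]
        · obtain ⟨h3, h4⟩ := hval β hβ
          obtain ⟨h5, h6⟩ := hval β₀ hβ₀
          rw [ha β x (Submodule.mem_inf.1 hx).2, ext0_commens θ' (hsep β β₀ h3 h5 (h4.trans h6.symm))]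
      · rw [map_zero, smul_zero]
      · intro x y hx hy
        rw [map_add, hx, hy, smul_add]
  have hcen' : ∀ X ∈ L, d * X = X * d → ∀ μ : ℂ, ∃ c : ℂ, ∀ v ∈ End.eigenspace d μ, X v = c • v := by
    intro X hX hdX
    refine hscal X (hcen X hX fun a ha => ?_)
    refine LinearMap.ext fun x => ?_
    have hx : x ∈ ⨆ x : ℝ, End.eigenspace d (x : ℂ) := by rw [hdiag]; trivial
    refine Submodule.iSup_induction (fun x : ℝ => End.eigenspace d (x : ℂ))
      (motive := fun x => (a * X) x = (X * a) x) hx ?_ ?_ ?_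
    · intro μ x hx
      obtain ⟨c, hc⟩ := hscal a ha (μ : ℂ)
      have hXx : X x ∈ End.eigenspace d (μ : ℂ) := by
        rw [Module.End.mem_eigenspace_iff] at hx ⊢
        have h1 := LinearMap.congr_fun hdX x
        rw [Module.End.mul_apply, Module.End.mul_apply, hx, map_smul] at h1
        exact h1
      rw [Module.End.mul_apply, Module.End.mul_apply, hc x hx, map_smul, hc _ hXx]
    · rw [map_zero, map_zero]
    · intro x y hx hy
      rw [map_add, map_add, hx, hy]
  obtain ⟨m, v, hv0, hvU, hvm, huniq⟩ := extremal L hL d (ht hdtor) hdiag hadiag hcen' U hU hU0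
    hsimple
  have hgv : g v ∈ End.eigenspace d (m : ℂ) := by
    rw [Module.End.mem_eigenspace_iff] at hvm ⊢
    have h1 := LinearMap.congr_fun hdg v
    rw [Module.End.mul_apply, Module.End.mul_apply, hvm, map_smul] at h1
    exact h1
  obtain ⟨a, ha⟩ := huniq (g v) (hUg v hvU) hgv
  refine ⟨a, v, hv0, hvU, ha, fun b hb w hwU hwb => ?_⟩
  have hva : v ∈ g.maxGenEigenspace a := by
    have h1 : v ∈ g.eigenspace a := Module.End.mem_eigenspace_iff.2 ha
    exact (Module.End.genEigenspace_le_maximal (f := g) (μ := a) (k := 1)) h1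
  have hma : ext0 θC a = m := by
    have h1 := hd a v hva
    rw [Module.End.mem_eigenspace_iff.1 hvm] at h1
    exact (smul_left_injective ℂ hv0 h1).symm
  refine huniq w hwU ?_
  rw [Module.End.mem_eigenspace_iff, hd b w hwb, ext0_commens θC hb, hma]

end torus

end Pool.Agent.Helper49A
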