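import Pool.Agent.Helper49A.Iso
import Pool.Agent.Y114.MU.SumRep

/-!
# Isolated simple roots of the characteristic polynomial on a summand
-/

set_option autoImplicit false
set_option linter.unusedSectionVars false

namespace Pool.Agent.Helper49A

open Module Polynomial TensorProduct Pool.Agent.Y114.RM Pool.Agent.TH118.SG Pool.Agent.Y114.TF
  Pool.Agent.Y114.MU Pool.Agent.H204R3.GP

/-- `a` is a simple root of `f`, and no other root of `f` is the product of `a` and a root of
unity. -/
def IsolatedRoot (f : ℂ[X]) (a : ℂ) : Prop :=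
  f.rootMultiplicity a = 1 ∧ ∀ b, f.IsRoot b → Commens b a → b = a

section blocks

variable {k : Type} [Field k] {ι : Type} [DecidableEq ι] {V : ι → Type}
  [∀ i, AddCommGroup (V i)] [∀ i, Module k (V i)]

/-- The projector onto the `i`-th summand. -/
def pr (k : Type) [Field k] {ι : Type} [DecidableEq ι] (V : ι → Type) [∀ i, AddCommGroup (V i)]
    [∀ i, Module k (V i)] (i : ι) : End k (∀ i, V i) :=
  LinearMap.single k V i ∘ₗ LinearMap.proj i

theorem pr_apply (i : ι) (x : ∀ i, V i) : pr k V i x = Pi.single i (x i) := rfl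

theorem pr_comm {X : End k (∀ i, V i)} (hX : ∀ x i, X x i = X (Pi.single i (x i)) i) (i : ι) :
    X * pr k V i = pr k V i * X := by
  refine LinearMap.ext fun x => funext fun j => ?_
  rw [End.mul_apply, End.mul_apply, pr_apply, pr_apply]
  by_cases hj : j = i
  · subst hj
    rw [Pi.single_eq_same, hX x]
  · rw [Pi.single_eq_of_ne hj, hX (Pi.single i (x i)) j, Pi.single_eq_of_ne hj, Pi.single_zero,
      map_zero, Pi.zero_apply]

/-- Endomorphisms which act by a scalar on each of the summands. -/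
def BlockScalar (Y : End k (∀ i, V i)) : Prop := ∃ c : ι → k, ∀ x i, Y x i = c i • x i

end blocks

section parts

variable {k : Type} [Field k] [CharZero k] [Algebra k ℂ] {ι : Type} [Fintype ι] [DecidableEq ι]
  {V : ι → Type} [∀ i, AddCommGroup (V i)] [∀ i, Module k (V i)] [∀ i, FiniteDimensional k (V i)]
  {Γ : Type} [Group Γ] (ρ : ∀ i, Representation k Γ (V i))

theorem isolated_root (h : Inputs) (h2 : Inputs2) {L : Submodule k (End k (∀ i, V i))}
    (hL : ∀ X, X ∈ L ↔ X ∈ LT (sumRep ρ)) (hLie : IsLie L) (hND : NonDeg L)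
    (hparts : ∀ X ∈ L, ∀ x i, X x i = X (Pi.single i (x i)) i) (γ : Γ)
    (hcen : ∀ x ∈ bcS ℂ L, (∀ a ∈ tor ((sumRep ρ γ).baseChange ℂ), a * x = x * a) →
      x ∈ tor ((sumRep ρ γ).baseChange ℂ))
    (hscal : ∀ Y : End k (∀ i, V i), (∀ X ∈ L, X * Y = Y * X) → BlockScalar Y)
    (i : ι) (hne : Nontrivial (V i)) :
    ∃ a, IsolatedRoot ((ρ i γ).charpoly.map (algebraMap k ℂ)) a := by
  classical
  set g : End ℂ (ℂ ⊗[k] (∀ i, V i)) := (sumRep ρ γ).baseChange ℂ with hg
  set g' : End ℂ (ℂ ⊗[k] (∀ i, V i)) := (sumRep ρ γ⁻¹).baseChange ℂ with hg'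
  have hgg' : g * g' = 1 := by rw [hg, hg', ← bc_mul, rho_mul_inv, bc_one]
  have hg'g : g' * g = 1 := by rw [hg, hg', ← bc_mul, rho_inv_mul, bc_one]
  have hLC : IsLie (bcS ℂ L) := (h.bc k ℂ _ L).2.1 hLie
  have hNC : NonDeg (bcS ℂ L) := (h.bc k ℂ _ L).2.2.1 hND
  set e : End k (∀ i, V i) := pr k V i with he
  set eC : End ℂ (ℂ ⊗[k] (∀ i, V i)) := e.baseChange ℂ with heC
  have hee : e * e = e := by
    refine LinearMap.ext fun x => ?_
    rw [End.mul_apply, he, pr_apply, pr_apply, Pi.single_eq_same]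
  have heeC : eC * eC = eC := by rw [heC, ← bc_mul, hee]
  have hsumparts : ∀ x j, sumRep ρ γ x j = sumRep ρ γ (Pi.single j (x j)) j := by
    intro x j
    rw [sumRep_single, Pi.single_eq_same]
    rfl
  have hge : g * eC = eC * g := by
    rw [hg, heC, ← bc_mul, ← bc_mul, pr_comm hsumparts i]
  have hLe : ∀ X ∈ bcS ℂ L, X * eC = eC * X := bcS_comm fun X hX => pr_comm (hparts X hX) i
  set U : Submodule ℂ (ℂ ⊗[k] (∀ i, V i)) := LinearMap.range eC with hU
  have hUmem : ∀ u, u ∈ U ↔ eC u = u := by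
    intro u
    constructor
    · rintro ⟨w, rfl⟩
      have h1 := LinearMap.congr_fun heeC w
      rwa [End.mul_apply] at h1
    · intro hu
      exact ⟨u, hu⟩
  have hUst : ∀ X : End ℂ (ℂ ⊗[k] (∀ i, V i)), X * eC = eC * X → ∀ u ∈ U, X u ∈ U := by
    intro X hX u hu
    rw [hUmem] at hu ⊢
    have h1 := LinearMap.congr_fun hX u
    rw [End.mul_apply, End.mul_apply, hu] at h1
    exact h1.symm
  -- the inclusion of the summand
  set J : ℂ ⊗[k] V i →ₗ[ℂ] ℂ ⊗[k] (∀ i, V i) := (LinearMap.single k V i).baseChange ℂ with hJ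
  have hJinj : Function.Injective J := by
    have h1 : (LinearMap.proj i : (∀ i, V i) →ₗ[k] V i).baseChange ℂ ∘ₗ J = LinearMap.id := by
      rw [hJ, ← LinearMap.baseChange_comp]
      have h3 : (LinearMap.proj i : (∀ i, V i) →ₗ[k] V i) ∘ₗ LinearMap.single k V i =
          LinearMap.id := by
        refine LinearMap.ext fun x => ?_
        exact Pi.single_eq_same i x
      rw [h3, LinearMap.baseChange_id]
    intro x y hxy
    have h3 := congrArg ((LinearMap.proj i : (∀ i, V i) →ₗ[k] V i).baseChange ℂ) hxy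
    have h4 := LinearMap.congr_fun h1 x
    have h5 := LinearMap.congr_fun h1 y
    rw [LinearMap.comp_apply, LinearMap.id_apply] at h4 h5
    rw [← h4, ← h5, h3]
  have hJU : ∀ x, J x ∈ U := by
    intro x
    rw [hUmem, heC, hJ]
    have h1 : e ∘ₗ LinearMap.single k V i = LinearMap.single k V i := by
      refine LinearMap.ext fun x => ?_
      show Pi.single i ((Pi.single i x : ∀ i, V i) i) = Pi.single i x
      rw [Pi.single_eq_same]
    have h3 := LinearMap.congr_fun (congrArg (fun f => f.baseChange ℂ) h1) x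
    simp only [LinearMap.baseChange_comp] at h3
    exact h3
  have hJg : ∀ x, g (J x) = J ((ρ i γ).baseChange ℂ x) := by
    intro x
    have h1 : (LinearMap.single k V i).baseChange ℂ ∘ₗ (ρ i γ).baseChange ℂ =
        (sumRep ρ γ).baseChange ℂ ∘ₗ (LinearMap.single k V i).baseChange ℂ := by
      rw [← LinearMap.baseChange_comp, ← LinearMap.baseChange_comp]
      congr 1
      refine LinearMap.ext fun y => ?_
      exact (sumRep_single ρ γ i y).symm
    exact (LinearMap.congr_fun h1 x).symm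
  have hUJ : ∀ u ∈ U, ∃ x, J x = u := by
    intro u hu
    rw [hUmem] at hu
    refine ⟨(LinearMap.proj i : (∀ i, V i) →ₗ[k] V i).baseChange ℂ u, ?_⟩
    have h1 : J ∘ₗ (LinearMap.proj i : (∀ i, V i) →ₗ[k] V i).baseChange ℂ = eC := by
      rw [hJ, ← LinearMap.baseChange_comp]
      rfl
    have h3 := LinearMap.congr_fun h1 u
    rw [LinearMap.comp_apply, hu] at h3
    exact h3
  have hU0 : U ≠ ⊥ := by
    obtain ⟨x, hx⟩ := exists_ne (0 : V i)
    have h1 : (1 : ℂ) ⊗ₜ[k] x ≠ 0 := by
      intro h0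
      apply hx
      obtain ⟨π, hπ⟩ := exists_pi k ℂ
      have h3 := congrArg (pv π) h0
      rw [map_zero, pv_tmul, hπ, one_smul] at h3
      exact h3
    intro hbot
    apply h1
    apply hJinj
    rw [map_zero]
    have h3 := hJU ((1 : ℂ) ⊗ₜ[k] x)
    rw [hbot, Submodule.mem_bot] at h3
    exact h3
  -- the summand is simple
  have hsimple : ∀ W ≤ U, (∀ X ∈ bcS ℂ L, ∀ w ∈ W, X w ∈ W) → W ≠ ⊥ → W = U := by
    intro W hWU hW hW0
    obtain ⟨P, hP1, hP2, hP3⟩ := h2.weyl ℂ _ (bcS ℂ L) hLC hNC (fun z hz hzL => by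
      have h1 := hcen z hz fun a ha => (hzL a (tor_le (sumRep ρ) h hL γ ha)).symm
      exact tor_diag g z h1) W hW
    have hPe : P * eC ∈ bcS ℂ (Submodule.span k {e}) := by
      rw [(h.bc k ℂ _ (Submodule.span k {e})).1]
      intro π
      rw [heC, pM_mul_bc]
      obtain ⟨c, hc⟩ := hscal (pM π P) (fun X hX => by
        rw [← pM_bc_mul, hP1 _ (mem_bcS hX), pM_mul_bc])
      refine Submodule.mem_span_singleton.2 ⟨c i, ?_⟩
      refine LinearMap.ext fun x => funext fun j => ?_
      rw [LinearMap.smul_apply, Pi.smul_apply, End.mul_apply, he, pr_apply, hc]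
      by_cases hj : j = i
      · subst hj
        rfl
      · rw [Pi.single_eq_of_ne hj, smul_zero, smul_zero]
    obtain ⟨c, hc⟩ : ∃ c : ℂ, P * eC = c • eC := by
      have h1 : bcS ℂ (Submodule.span k {e}) ≤ Submodule.span ℂ {eC} := by
        unfold bcS
        rw [Submodule.span_le]
        rintro _ ⟨X, hX, rfl⟩
        obtain ⟨c, rfl⟩ := Submodule.mem_span_singleton.1 hX
        rw [SetLike.mem_coe]
        refine Submodule.mem_span_singleton.2 ⟨algebraMap k ℂ c, ?_⟩
        rw [LinearMap.baseChange_smul, heC]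
        refine LinearMap.ext fun x => ?_
        rw [LinearMap.smul_apply, LinearMap.smul_apply, algebraMap_smul]
      obtain ⟨c, hc⟩ := Submodule.mem_span_singleton.1 (h1 hPe)
      exact ⟨c, hc.symm⟩
    obtain ⟨w, hw, hw0⟩ := Submodule.exists_mem_ne_zero_of_ne_bot hW0
    have hwU := (hUmem w).1 (hWU hw)
    have h1 := LinearMap.congr_fun hc w
    rw [End.mul_apply, LinearMap.smul_apply, hwU, hP3 w hw] at h1
    have hc1 : c = 1 := by
      have h3 : (1 : ℂ) • w = c • w := by rw [one_smul]; exact h1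
      exact (smul_left_injective ℂ hw0 h3).symm
    refine le_antisymm hWU fun u hu => ?_
    have hu' := (hUmem u).1 hu
    have h3 := LinearMap.congr_fun hc u
    rw [End.mul_apply, LinearMap.smul_apply, hu', hc1, one_smul] at h3
    rw [← h3]
    exact hP2 u
  obtain ⟨a, v, hv0, hvU, hva, huniq⟩ := isolated_torus h g g' hgg' hg'g (bcS ℂ L) hLC
    (tor_le (sumRep ρ) h hL γ) hcen U (fun X hX => hUst X (hLe X hX)) hU0 hsimple (hUst g hge)
  obtain ⟨v', hv'⟩ := hUJ v hvU
  set gi : End ℂ (ℂ ⊗[k] V i) := (ρ i γ).baseChange ℂ with hgi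
  have hv'0 : v' ≠ 0 := by
    rintro rfl
    rw [map_zero] at hv'
    exact hv0 hv'.symm
  have hgv' : gi v' = a • v' := by
    apply hJinj
    rw [← hJg, hv', hva, map_smul, hv']
  have hJgen : ∀ b, ∀ x ∈ gi.maxGenEigenspace b, J x ∈ g.maxGenEigenspace b := by
    intro b x hx
    rw [mem_gen] at hx ⊢
    obtain ⟨m, hm⟩ := hx
    refine ⟨m, ?_⟩
    have hpow : ∀ (m : ℕ) (x : ℂ ⊗[k] V i), ((g - algebraMap ℂ (End ℂ (ℂ ⊗[k] (∀ i, V i))) b) ^ m) (J x) =
        J (((gi - algebraMap ℂ (End ℂ (ℂ ⊗[k] V i)) b) ^ m) x) := by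
      intro m
      induction m with
      | zero => intro x; rfl
      | succ m ih =>
        intro x
        rw [pow_succ, pow_succ, End.mul_apply, End.mul_apply]
        have h1 : (g - algebraMap ℂ (End ℂ (ℂ ⊗[k] (∀ i, V i))) b) (J x) =
            J ((gi - algebraMap ℂ (End ℂ (ℂ ⊗[k] V i)) b) x) := by
          rw [LinearMap.sub_apply, LinearMap.sub_apply, hJg, map_sub, Module.algebraMap_end_apply,
            Module.algebraMap_end_apply, map_smul]
        rw [h1, ih]
    rw [hpow, hm, map_zero]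
  have hchar : (ρ i γ).charpoly.map (algebraMap k ℂ) = gi.charpoly := by
    rw [hgi, LinearMap.charpoly_baseChange]
  have hrank : ∀ b, finrank ℂ (gi.maxGenEigenspace b) =
      ((ρ i γ).charpoly.map (algebraMap k ℂ)).rootMultiplicity b := by
    intro b
    rw [hchar]
    exact LinearMap.finrank_maxGenEigenspace_eq gi b
  have hva' : v' ∈ gi.maxGenEigenspace a :=
    (Module.End.genEigenspace_le_maximal (f := gi) (μ := a) (k := 1))
      (Module.End.mem_eigenspace_iff.2 hgv')
  have hone : ∀ b, Commens b a → ∀ w ∈ gi.maxGenEigenspace b, ∃ c : ℂ, w = c • v' := by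
    intro b hb w hw
    obtain ⟨c, hc⟩ := huniq b hb (J w) (hJU w) (hJgen b w hw)
    refine ⟨c, hJinj ?_⟩
    rw [hc, map_smul, hv']
  refine ⟨a, ?_, fun b hb hba => ?_⟩
  · rw [← hrank a]
    refine finrank_eq_one (⟨v', hva'⟩ : gi.maxGenEigenspace a) ?_ ?_
    · intro h0
      exact hv'0 (congrArg Subtype.val h0)
    · rintro ⟨w, hw⟩
      obtain ⟨c, hc⟩ := hone a ⟨1, one_pos, rfl⟩ w hw
      exact ⟨c, Subtype.ext hc.symm⟩
  · by_contra hne'
    have h1 : gi.HasEigenvalue b := by
      rw [Module.End.hasEigenvalue_iff_isRoot_charpoly, ← hchar]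
      exact hb
    obtain ⟨w, hw⟩ := h1.exists_hasEigenvector
    have hw1 : w ∈ gi.maxGenEigenspace b :=
      (Module.End.genEigenspace_le_maximal (f := gi) (μ := b) (k := 1)) hw.1
    obtain ⟨c, hc⟩ := hone b hba w hw1
    have hw2 : w ∈ gi.maxGenEigenspace a := by
      rw [hc]
      exact Submodule.smul_mem _ c hva'
    have h3 := (Module.End.independent_maxGenEigenspace gi).pairwiseDisjoint hne'
    exact hw.2 (Submodule.disjoint_def.1 h3 w hw1 hw2)

end parts

end Pool.Agent.Helper49A
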