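import Pool.Agent.Helper49A.Endo2

/-!
# Isolated Frobenius eigenvalues at a place of maximal rank
-/

set_option autoImplicit false
set_option linter.unusedSectionVars false

namespace Pool.Agent.Helper49A

open NumberField IsDedekindDomain Module Polynomial TensorProduct Pool.Agent.Y114.RM
  Pool.Agent.Y114.TF Pool.Agent.Y114.GF Pool.Agent.Y114.MU Pool.Agent.H204R3.GP
  Pool.Agent.R931.IR Pool.Agent.R931.BD Pool.Agent.N203.RE Pool.Agent.W571.FM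

section place

variable {ι : Type} [Fintype ι] [DecidableEq ι] {n : ι → ℕ} {ℓ : ℕ} [hℓ : Fact ℓ.Prime]
  {Γ : Type} [Group Γ] [TopologicalSpace Γ] [IsTopologicalGroup Γ] [CompactSpace Γ]

/-- If the endomorphisms over finite extensions are block scalars, then a group element with `r`
independent eigenvalues has an isolated simple eigenvalue on every summand. -/
theorem isolated_of_rank (alg : Algebra ℚ_[ℓ] ℂ)
    (ρ : ∀ i, Representation ℚ_[ℓ] Γ (Fin (n i) → ℚ_[ℓ]))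
    (hρ : ∀ i, Continuous fun g => LinearMap.toMatrix' (ρ i g))
    (𝔤 : Submodule ℚ_[ℓ] (End ℚ_[ℓ] (∀ i, Fin (n i) → ℚ_[ℓ]))) (h𝔤 : IsMotivic ρ 𝔤) {r : ℕ}
    (hrk : RankAtMost 𝔤 r) (hss : FiniteIndexSemisimple (sumRep ρ))
    {L : Submodule ℚ_[ℓ] (End ℚ_[ℓ] (∀ i, Fin (n i) → ℚ_[ℓ]))}
    (hLT : ∀ X, X ∈ L ↔ ∀ (m : ℕ) (φ : Tensor ℚ_[ℓ] (∀ i, Fin (n i) → ℚ_[ℓ]) m),
      TateTensor (sumRep ρ) φ → KillsTensor X φ) (hLie : IsLie L) (hLG : L ≤ 𝔤)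
    (hND : NonDeg L) (hstrong : ∀ Y ∈ tateEnd (sumRep ρ), BlockScalar Y) (γ : Γ)
    (z : Fin r → ℂ) (hz : ∀ i, End.HasEigenvalue ((sumRep ρ γ).baseChange ℂ) (z i))
    (hind : ∀ e : Fin r → ℤ, ∏ i, z i ^ e i = 1 → e = 0) (i : ι) (hi : 0 < n i) :
    ∃ a, IsolatedRoot ((ρ i γ).charpoly.map (algebraMap ℚ_[ℓ] ℂ)) a := by
  classical
  have h := inputs
  have h2 := inputs2
  have hL : ∀ X, X ∈ L ↔ X ∈ LT (sumRep ρ) := fun X =>
    ⟨fun hX => mem_LT_of_semisimple (sumRep ρ) hss ((hLT X).1 hX), fun hX => (hLT X).2 hX.2⟩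
  obtain ⟨L', hL', -, hAd', -⟩ := h.lie ℚ_[ℓ] (∀ i, Fin (n i) → ℚ_[ℓ]) _ (sumRep ρ)
  have hLL' : L' = L := by
    ext X
    rw [hL', hL]
  rw [hLL'] at hAd'
  obtain ⟨Δ', hΔ', hcommΔ⟩ := h2.tfr ℓ ι n _ ρ hρ (comm L) (comm_conj (sumRep ρ) hAd')
    (comm_order (sumRep ρ) h h2 hL)
  have hcen := torus_cen (sumRep ρ) h h2.jord h2.cartan hL hLG h𝔤.bracket h𝔤.nondeg h𝔤.algebraic
    hrk γ z hz hind
  have hne : Nontrivial (Fin (n i) → ℚ_[ℓ]) := by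
    have : Nonempty (Fin (n i)) := ⟨⟨0, hi⟩⟩
    infer_instance
  exact isolated_root ρ h h2 hL hLie hND (fun X hX => h𝔤.parts X (hLG hX)) γ
    (fun x hx ha => hcen x (bcS_mono hLG hx) ha)
    (fun Y hY => hstrong Y ⟨Δ', hΔ', fun γ hγ => hcommΔ γ hγ Y hY⟩) i hne

end place

end Pool.Agent.Helper49A
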