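import Pool.Agent.Helper49A.Dich
import Pool.Agent.R931.IR.Place
import Pool.Agent.N203.RE.Main

/-!
# Transfer of trace identities from one prime to another
-/

set_option autoImplicit false
set_option linter.unusedSectionVars false

namespace Pool.Agent.Helper49A

open NumberField IsDedekindDomain Module Polynomial TensorProduct Pool.Agent.Y114.RM
  Pool.Agent.Y114.TF Pool.Agent.Y114.GF Pool.Agent.Y114.MU Pool.Agent.H204R3.GP
  Pool.Agent.R931.IR Pool.Agent.W571.FM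

section trace

theorem trace_charpoly {K : Type} [Field K] {m : ℕ} (A : End K (Fin m → K)) :
    LinearMap.trace K (Fin m → K) A = if m = 0 then 0 else -(A.charpoly.coeff (m - 1)) := by
  by_cases hm : m = 0
  · subst hm
    rw [if_pos rfl]
    have h1 : A = 0 := LinearMap.ext fun x => Subsingleton.elim _ _
    rw [h1, map_zero]
  · rw [if_neg hm]
    have : Nonempty (Fin m) := ⟨⟨0, Nat.pos_of_ne_zero hm⟩⟩
    have h1 := Matrix.trace_eq_neg_charpoly_coeff (LinearMap.toMatrix (Pi.basisFun K (Fin m))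
      (Pi.basisFun K (Fin m)) A)
    rw [LinearMap.charpoly_toMatrix, Fintype.card_fin] at h1
    rw [LinearMap.trace_eq_matrix_trace K (Pi.basisFun K (Fin m)), h1]

/-- The trace which is determined by a rational characteristic polynomial. -/
noncomputable def ratTrace (m : ℕ) (P : ℚ[X]) : ℚ := if m = 0 then 0 else -(P.coeff (m - 1))

theorem trace_rat {K : Type} [Field K] [Algebra ℚ K] {m : ℕ} {A : End K (Fin m → K)} {P : ℚ[X]}
    (h : A.charpoly = P.map (algebraMap ℚ K)) :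
    LinearMap.trace K (Fin m → K) A = algebraMap ℚ K (ratTrace m P) := by
  rw [trace_charpoly, h, ratTrace]
  by_cases hm : m = 0
  · rw [if_pos hm, if_pos hm, map_zero]
  · rw [if_neg hm, if_neg hm, coeff_map, map_neg]

end trace

section transfer

variable {K : Type} [Field K] [NumberField K] {ι : Type} [Fintype ι] {n : ι → ℕ}
  {w : ι → ℤ} {ℓ ℓ₀ : ℕ} [hℓ : Fact ℓ.Prime] [hℓ₀ : Fact ℓ₀.Prime]

theorem finite_aboveK (K : Type) [Field K] [NumberField K] (ℓ : ℕ) (hℓ : ℓ.Prime) :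
    {v : HeightOneSpectrum (𝓞 K) | Above v ℓ}.Finite := by
  have h1 : (ℓ : 𝓞 K) ≠ 0 := Nat.cast_ne_zero.2 hℓ.ne_zero
  have h2 := Ideal.finite_factors (I := Ideal.span {(ℓ : 𝓞 K)}) (by
    intro h
    rw [Ideal.zero_eq_bot, Ideal.span_singleton_eq_bot] at h
    exact h1 h)
  refine h2.subset ?_
  intro v hv
  have h3 : (ℓ : 𝓞 K) ∈ v.asIdeal := hv
  show v.asIdeal ∣ Ideal.span {(ℓ : 𝓞 K)}
  rwa [Ideal.dvd_span_singleton]

theorem continuous_trace {Γ : Type} [Group Γ] [TopologicalSpace Γ] (ρ : Reps Γ n ℓ)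
    (hρ : Conts ρ) (c : ι → ℤ) :
    Continuous fun g => ∑ i, (c i : ℚ_[ℓ]) * LinearMap.trace ℚ_[ℓ] _ (ρ i g) := by
  refine continuous_finsetSum _ fun i _ => ?_
  have h1 : (fun g => LinearMap.trace ℚ_[ℓ] _ (ρ i g)) =
      fun g => Matrix.trace (LinearMap.toMatrix' (ρ i g)) := by
    funext g
    rw [LinearMap.trace_eq_matrix_trace ℚ_[ℓ] (Pi.basisFun ℚ_[ℓ] (Fin (n i)))]
    rfl
  have h2 : Continuous fun g => LinearMap.trace ℚ_[ℓ] _ (ρ i g) := by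
    rw [h1]
    exact (hρ i).matrix_trace
  exact continuous_const.mul h2

/-- A linear relation between the traces which holds on an open set at the prime `ℓ` holds there at
the prime `ℓ₀`. -/
theorem transfer (ρ : Reps Gal(AlgebraicClosure K/K) n ℓ)
    (ρ₀ : Reps Gal(AlgebraicClosure K/K) n ℓ₀) (hρ₀ : Conts ρ₀)
    (S : Set (HeightOneSpectrum (𝓞 K))) (hS : S.Finite) (P : HeightOneSpectrum (𝓞 K) → ι → ℚ[X])
    (hP : ∀ v ∉ S, ¬ Above v ℓ → ∀ i, GoodReduction ρ i (w i) v (P v i))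
    (hP₀ : ∀ v ∉ S, ¬ Above v ℓ₀ → ∀ i, GoodReduction ρ₀ i (w i) v (P v i))
    (O : Set Gal(AlgebraicClosure K/K)) (hO : IsOpen O) (c : ι → ℤ)
    (h : ∀ g ∈ O, ∑ i, (c i : ℚ_[ℓ]) * LinearMap.trace ℚ_[ℓ] _ (ρ i g) = 0) :
    ∀ g ∈ O, ∑ i, (c i : ℚ_[ℓ₀]) * LinearMap.trace ℚ_[ℓ₀] _ (ρ₀ i g) = 0 := by
  intro g hg
  by_contra hne
  let O' : Set Gal(AlgebraicClosure K/K) :=
    O ∩ {g | ∑ i, (c i : ℚ_[ℓ₀]) * LinearMap.trace ℚ_[ℓ₀] _ (ρ₀ i g) ≠ 0}
  have hO' : IsOpen O' := hO.inter (isOpen_ne_fun (continuous_trace ρ₀ hρ₀ c) continuous_const)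
  obtain ⟨v, hv, φ, ⟨Q, hQ, hQv, hφ⟩, hφO⟩ := Pool.Agent.Y405.ZO.t K O' hO' ⟨g, hg, hne⟩
    (S ∪ {v | Above v ℓ} ∪ {v | Above v ℓ₀})
    ((hS.union (finite_aboveK K ℓ hℓ.out)).union (finite_aboveK K ℓ₀ hℓ₀.out))
  have hvS : v ∉ S := fun h' => hv (Or.inl (Or.inl h'))
  have hvℓ : ¬ Above v ℓ := fun h' => hv (Or.inl (Or.inr h'))
  have hvℓ₀ : ¬ Above v ℓ₀ := fun h' => hv (Or.inr h')
  have h1 : ∀ i, LinearMap.trace ℚ_[ℓ] _ (ρ i φ⁻¹) = algebraMap ℚ ℚ_[ℓ] (ratTrace (n i) (P v i)) :=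
    fun i => trace_rat (((hP v hvS hvℓ i).2 Q ⟨hQ.isPrime, hQv⟩ φ).2 hφ)
  have h2 : ∀ i, LinearMap.trace ℚ_[ℓ₀] _ (ρ₀ i φ⁻¹) =
      algebraMap ℚ ℚ_[ℓ₀] (ratTrace (n i) (P v i)) :=
    fun i => trace_rat (((hP₀ v hvS hvℓ₀ i).2 Q ⟨hQ.isPrime, hQv⟩ φ).2 hφ)
  have h3 : (∑ i, (c i : ℚ) * ratTrace (n i) (P v i)) = 0 := by
    have h4 := h _ hφO.1
    rw [Finset.sum_congr rfl fun i _ => by rw [h1 i]] at h4
    apply (algebraMap ℚ ℚ_[ℓ]).injective
    rw [map_zero, map_sum, ← h4]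
    refine Finset.sum_congr rfl fun i _ => ?_
    rw [map_mul, map_intCast]
  apply hφO.2
  rw [Finset.sum_congr rfl fun i _ => by rw [h2 i]]
  have h5 := congrArg (algebraMap ℚ ℚ_[ℓ₀]) h3
  rw [map_zero, map_sum] at h5
  rw [← h5]
  refine Finset.sum_congr rfl fun i _ => ?_
  rw [map_mul, map_intCast]

end transfer

end Pool.Agent.Helper49A
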